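import Mathlib

set_option autoImplicit false

/-!
# Points of a random permutation in a set of cells

For a set `U` of cells of the `n × n` grid, the number of permutations with at least `r` points in
`U` is at most `n! (1 + y)^(-r) exp(y |U| / n + 2 r^2 / n)`, for all `y ≥ 0` and `r ≤ n / 2`.
-/

namespace Pool.Agent.K9h57.PermClass

open Finset

/-- The number of points of the graph of `π` in `U`. -/
def hits {n : ℕ} (U : Finset (Fin n × Fin n)) (π : Equiv.Perm (Fin n)) : ℕ :=
  (U.filter fun x => π x.1 = x.2).card

/-- The number of permutations whose graph contains `T` is at most `(n - |T|)!`. -/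
lemma card_superset {n : ℕ} (T : Finset (Fin n × Fin n)) :
    ((univ : Finset (Equiv.Perm (Fin n))).filter fun π => ∀ x ∈ T, π x.1 = x.2).card ≤
      (n - T.card).factorial := by
  classical
  by_cases h : ∃ π0 : Equiv.Perm (Fin n), ∀ x ∈ T, π0 x.1 = x.2
  · obtain ⟨π0, h0⟩ := h
    set X : Finset (Fin n) := T.image Prod.fst with hX
    have hXc : X.card = T.card := by
      apply Finset.card_image_of_injOn
      intro x hx y hy hxy
      have h1 := h0 x hx
      have h2 := h0 y hy
      have h3 : x.2 = y.2 := by
        rw [← h1, ← h2]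
        have hxy' : x.1 = y.1 := hxy
        rw [hxy']
      exact Prod.ext hxy h3
    have hcard : Fintype.card {f : Equiv.Perm (Fin n) // ∀ a, ¬ (a ∉ X) → f a = a} =
        (n - T.card).factorial := by
      rw [← Fintype.card_congr (Equiv.Perm.subtypeEquivSubtypePerm (fun a => a ∉ X))]
      rw [Fintype.card_perm]
      congr 1
      rw [Fintype.card_subtype_compl (fun a => a ∈ X)]
      simp [hXc]
    rw [← hcard, ← Fintype.card_coe]
    refine Fintype.card_le_of_injective (fun π => ⟨π0⁻¹ * π.1, ?_⟩) ?_
    · intro a ha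
      have ha' : a ∈ X := by simpa using ha
      obtain ⟨x, hx, rfl⟩ := Finset.mem_image.1 ha'
      have hπ := (Finset.mem_filter.1 π.2).2 x hx
      rw [Equiv.Perm.mul_apply, hπ, ← h0 x hx]
      simp
    · intro π π' hh
      have h1 : π0⁻¹ * π.1 = π0⁻¹ * π'.1 := congrArg Subtype.val hh
      exact Subtype.ext (mul_left_cancel h1)
  · have hemp : ((univ : Finset (Equiv.Perm (Fin n))).filter fun π => ∀ x ∈ T, π x.1 = x.2) = ∅ := by
      apply Finset.filter_eq_empty_iff.2
      intro π _ hπ
      exact h ⟨π, hπ⟩
    rw [hemp]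
    simp

/-- `(n - j)! n^j ≤ n! exp(2 j² / n)` for `j ≤ n / 2`. -/
lemma factorial_bound {n : ℕ} (hn : 0 < n) : ∀ j : ℕ, 2 * j ≤ n →
    (((n - j).factorial : ℕ) : ℝ) * (n : ℝ) ^ j ≤
      (n.factorial : ℝ) * Real.exp (2 * (j : ℝ) ^ 2 / n) := by
  intro j
  induction j with
  | zero => intro _; simp
  | succ j ih =>
    intro hj
    have ih' := ih (by omega)
    have hnR : (0 : ℝ) < n := by exact_mod_cast hn
    have h1 : (n - j).factorial = (n - j) * (n - (j + 1)).factorial := by
      have : n - j = (n - (j + 1)) + 1 := by omega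
      rw [this, Nat.factorial_succ]
    have hx : (0 : ℝ) < (n : ℝ) - j := by
      have : (j : ℝ) + 1 ≤ n := by exact_mod_cast (by omega : j + 1 ≤ n)
      linarith
    have h2 : (((n - j : ℕ)) : ℝ) = (n : ℝ) - j := by
      rw [Nat.cast_sub (by omega)]
    have h3 : (((n - j).factorial : ℕ) : ℝ) = ((n : ℝ) - j) * (((n - (j + 1)).factorial : ℕ) : ℝ) := by
      rw [h1]; push_cast; rw [h2]
    -- `n ≤ (n - j) exp(2 j / n)`
    have hxj : (2 : ℝ) * j ≤ n := by exact_mod_cast (by omega : 2 * j ≤ n)
    have h4 : (n : ℝ) ≤ ((n : ℝ) - j) * Real.exp (2 * j / n) := by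
      have he : 1 + 2 * (j : ℝ) / n ≤ Real.exp (2 * j / n) := by
        have := Real.add_one_le_exp (2 * (j : ℝ) / n)
        linarith
      have hk : (n : ℝ) ≤ ((n : ℝ) - j) * (1 + 2 * (j : ℝ) / n) := by
        have : ((n : ℝ) - j) * (1 + 2 * (j : ℝ) / n) = n + j * (n - 2 * j) / n := by
          field_simp
          ring
        rw [this]
        have : 0 ≤ (j : ℝ) * (n - 2 * j) / n := by
          apply div_nonneg _ hnR.le
          apply mul_nonneg (Nat.cast_nonneg j)
          linarith
        linarith
      exact hk.trans (mul_le_mul_of_nonneg_left he hx.le)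
    have h5 : Real.exp (2 * (j : ℝ) ^ 2 / n) * Real.exp (2 * j / n) ≤
        Real.exp (2 * ((j + 1 : ℕ) : ℝ) ^ 2 / n) := by
      rw [← Real.exp_add]
      apply Real.exp_le_exp.2
      rw [← add_div]
      apply div_le_div_of_nonneg_right _ hnR.le
      push_cast
      nlinarith [(Nat.cast_nonneg j : (0 : ℝ) ≤ j)]
    have hpos : (0 : ℝ) ≤ (((n - (j + 1)).factorial : ℕ) : ℝ) := Nat.cast_nonneg _
    calc (((n - (j + 1)).factorial : ℕ) : ℝ) * (n : ℝ) ^ (j + 1)
        = ((((n - (j + 1)).factorial : ℕ) : ℝ) * (n : ℝ) ^ j) * n := by ring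
      _ ≤ ((((n - (j + 1)).factorial : ℕ) : ℝ) * (n : ℝ) ^ j) *
            (((n : ℝ) - j) * Real.exp (2 * j / n)) := by
          apply mul_le_mul_of_nonneg_left h4; positivity
      _ = ((((n - j).factorial : ℕ) : ℝ) * (n : ℝ) ^ j) * Real.exp (2 * j / n) := by
          rw [h3]; ring
      _ ≤ ((n.factorial : ℝ) * Real.exp (2 * (j : ℝ) ^ 2 / n)) * Real.exp (2 * j / n) := by
          apply mul_le_mul_of_nonneg_right ih' (Real.exp_pos _).le
      _ = (n.factorial : ℝ) * (Real.exp (2 * (j : ℝ) ^ 2 / n) * Real.exp (2 * j / n)) := by ring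
      _ ≤ (n.factorial : ℝ) * Real.exp (2 * ((j + 1 : ℕ) : ℝ) ^ 2 / n) := by
          apply mul_le_mul_of_nonneg_left h5; positivity

/-- **The tail bound.** -/
lemma tail {n : ℕ} (hn : 0 < n) (U : Finset (Fin n × Fin n)) (r : ℕ) (hr : 2 * r ≤ n) (y : ℝ)
    (hy : 0 ≤ y) :
    (((univ : Finset (Equiv.Perm (Fin n))).filter fun π => r ≤ hits U π).card : ℝ) *
        (1 + y) ^ r ≤
      (n.factorial : ℝ) * Real.exp (y * U.card / n + 2 * (r : ℝ) ^ 2 / n) := by
  classical
  have hnR : (0 : ℝ) < n := by exact_mod_cast hn
  -- first step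
  have h1 : (((univ : Finset (Equiv.Perm (Fin n))).filter fun π => r ≤ hits U π).card : ℝ) *
        (1 + y) ^ r ≤
      ∑ π : Equiv.Perm (Fin n), ∑ j ∈ range (r + 1), ((hits U π).choose j : ℝ) * y ^ j := by
    rw [← nsmul_eq_mul, ← Finset.sum_const]
    calc ∑ π ∈ (univ : Finset (Equiv.Perm (Fin n))).filter (fun π => r ≤ hits U π), (1 + y) ^ r
        ≤ ∑ π ∈ (univ : Finset (Equiv.Perm (Fin n))).filter (fun π => r ≤ hits U π),
            ∑ j ∈ range (r + 1), ((hits U π).choose j : ℝ) * y ^ j := by
          apply Finset.sum_le_sum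
          intro π hπ
          have hr' := (Finset.mem_filter.1 hπ).2
          rw [add_comm 1 y, add_pow]
          apply Finset.sum_le_sum
          intro j _
          rw [one_pow, mul_one, mul_comm]
          apply mul_le_mul_of_nonneg_right _ (pow_nonneg hy j)
          exact_mod_cast Nat.choose_le_choose j hr'
      _ ≤ _ := by
          apply Finset.sum_le_sum_of_subset_of_nonneg (Finset.filter_subset _ _)
          intro π _ _
          positivity
  -- counting pairs
  have h2 : ∀ j : ℕ, ∑ π : Equiv.Perm (Fin n), ((hits U π).choose j : ℝ) ≤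
      (U.card.choose j : ℝ) * ((n - j).factorial : ℝ) := by
    intro j
    have hN : ∑ π : Equiv.Perm (Fin n), (hits U π).choose j ≤ U.card.choose j * (n - j).factorial := by
      calc ∑ π : Equiv.Perm (Fin n), (hits U π).choose j
          = ∑ π : Equiv.Perm (Fin n), ((U.powersetCard j).filter
              fun T => ∀ x ∈ T, π x.1 = x.2).card := by
            apply Finset.sum_congr rfl
            intro π _
            unfold hits
            rw [← Finset.card_powersetCard]
            congr 1
            ext T
            simp only [Finset.mem_powersetCard, Finset.mem_filter, Finset.subset_iff]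
            constructor
            · rintro ⟨h, hc⟩
              exact ⟨⟨fun x hx => (h hx).1, hc⟩, fun x hx => (h hx).2⟩
            · rintro ⟨⟨h, hc⟩, h'⟩
              exact ⟨fun x hx => ⟨h hx, h' x hx⟩, hc⟩
        _ = ∑ T ∈ U.powersetCard j, ((univ : Finset (Equiv.Perm (Fin n))).filter
              fun π => ∀ x ∈ T, π x.1 = x.2).card := by
            simp only [Finset.card_filter]
            rw [Finset.sum_comm]
        _ ≤ ∑ T ∈ U.powersetCard j, (n - j).factorial := by
            apply Finset.sum_le_sum
            intro T hT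
            have := card_superset T
            rwa [(Finset.mem_powersetCard.1 hT).2] at this
        _ = U.card.choose j * (n - j).factorial := by
            rw [Finset.sum_const, Finset.card_powersetCard, smul_eq_mul]
    exact_mod_cast hN
  have h3 : ∑ π : Equiv.Perm (Fin n), ∑ j ∈ range (r + 1), ((hits U π).choose j : ℝ) * y ^ j ≤
      ∑ j ∈ range (r + 1), (U.card.choose j : ℝ) * (y / n) ^ j *
        ((n.factorial : ℝ) * Real.exp (2 * (r : ℝ) ^ 2 / n)) := by
    rw [Finset.sum_comm]
    apply Finset.sum_le_sum
    intro j hj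
    have hjr : j ≤ r := by
      have := Finset.mem_range.1 hj
      omega
    rw [← Finset.sum_mul]
    have hf := factorial_bound hn j (by omega)
    have he : Real.exp (2 * (j : ℝ) ^ 2 / n) ≤ Real.exp (2 * (r : ℝ) ^ 2 / n) := by
      apply Real.exp_le_exp.2
      apply div_le_div_of_nonneg_right _ hnR.le
      have : (j : ℝ) ≤ r := by exact_mod_cast hjr
      nlinarith [(Nat.cast_nonneg j : (0 : ℝ) ≤ j)]
    calc (∑ π : Equiv.Perm (Fin n), ((hits U π).choose j : ℝ)) * y ^ j
        ≤ ((U.card.choose j : ℝ) * ((n - j).factorial : ℝ)) * y ^ j :=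
          mul_le_mul_of_nonneg_right (h2 j) (pow_nonneg hy j)
      _ = (U.card.choose j : ℝ) * (y / n) ^ j * (((n - j).factorial : ℝ) * (n : ℝ) ^ j) := by
          rw [div_pow]
          field_simp
      _ ≤ (U.card.choose j : ℝ) * (y / n) ^ j *
            ((n.factorial : ℝ) * Real.exp (2 * (r : ℝ) ^ 2 / n)) := by
          apply mul_le_mul_of_nonneg_left _ (by positivity)
          exact hf.trans (mul_le_mul_of_nonneg_left he (by positivity))
  have h4 : ∑ j ∈ range (r + 1), (U.card.choose j : ℝ) * (y / n) ^ j ≤ Real.exp (y * U.card / n) := by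
    calc ∑ j ∈ range (r + 1), (U.card.choose j : ℝ) * (y / n) ^ j
        ≤ ∑ j ∈ range (max r U.card + 1), (U.card.choose j : ℝ) * (y / n) ^ j := by
          apply Finset.sum_le_sum_of_subset_of_nonneg
          · intro j hj
            simp only [Finset.mem_range] at hj ⊢
            have := le_max_left r U.card
            omega
          · intro j _ _
            positivity
      _ = ∑ j ∈ range (U.card + 1), (U.card.choose j : ℝ) * (y / n) ^ j := by
          symm
          apply Finset.sum_subset
          · intro j hj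
            simp only [Finset.mem_range] at hj ⊢
            have := le_max_right r U.card
            omega
          · intro j _ hj
            have : U.card < j := by
              simp only [Finset.mem_range, not_lt] at hj
              omega
            rw [Nat.choose_eq_zero_of_lt this]
            simp
      _ = (y / n + 1) ^ U.card := by
          rw [add_pow]
          apply Finset.sum_congr rfl
          intro j _
          rw [one_pow, mul_one, mul_comm]
      _ ≤ (Real.exp (y / n)) ^ U.card := by
          apply pow_le_pow_left₀ (by positivity)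
          exact Real.add_one_le_exp _
      _ = Real.exp (y * U.card / n) := by
          rw [← Real.exp_nat_mul]
          congr 1
          ring
  calc _ ≤ _ := h1
    _ ≤ _ := h3
    _ = (∑ j ∈ range (r + 1), (U.card.choose j : ℝ) * (y / n) ^ j) *
          ((n.factorial : ℝ) * Real.exp (2 * (r : ℝ) ^ 2 / n)) := by rw [Finset.sum_mul]
    _ ≤ Real.exp (y * U.card / n) * ((n.factorial : ℝ) * Real.exp (2 * (r : ℝ) ^ 2 / n)) := by
        apply mul_le_mul_of_nonneg_right h4 (by positivity)
    _ = _ := by
        rw [Real.exp_add]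
        ring

end Pool.Agent.K9h57.PermClass
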