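import Mathlib
import Pool.Agent.K9h57.PermClass.Tail

set_option autoImplicit false

/-!
# Covering a subsequence by a coarse chain of boxes

A permutation `σ` whose components have size at most `k` is cut greedily into blocks of size at most
`k`, two consecutive ones having together more than `k` elements.  If `σ` is contained in `π` then
the blocks lie in a chain of boxes of the grid of cells of side `g`.
-/

namespace Pool.Agent.K9h57.PermClass

open Finset

/-- `Contained σ π`: some subsequence of `π` (in one-line form `π 0, ..., π (n-1)`) has pattern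
`σ`. -/
def Contained {k n : ℕ} (σ : Equiv.Perm (Fin k)) (π : Equiv.Perm (Fin n)) : Prop :=
  ∃ f : Fin k → Fin n, StrictMono f ∧ ∀ i j, σ i < σ j ↔ π (f i) < π (f j)

/-- `b` is a cut of `σ`: `σ` maps the numbers below `b` to themselves. -/
def IsCut {m : ℕ} (σ : Equiv.Perm (Fin m)) (b : ℕ) : Prop :=
  b ≤ m ∧ ∀ i : Fin m, (i : ℕ) < b → (σ i : ℕ) < b

/-- The components of `σ` have size at most `k`. -/
def Small (k : ℕ) {m : ℕ} (σ : Equiv.Perm (Fin m)) : Prop :=
  ∀ a < m, ∃ b, a < b ∧ b ≤ a + k ∧ IsCut σ b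

lemma isCut_zero {m : ℕ} (σ : Equiv.Perm (Fin m)) : IsCut σ 0 :=
  ⟨Nat.zero_le _, fun _ hi => absurd hi (Nat.not_lt_zero _)⟩

lemma isCut_top {m : ℕ} (σ : Equiv.Perm (Fin m)) : IsCut σ m :=
  ⟨le_rfl, fun i _ => (σ i).2⟩

lemma IsCut.ge {m : ℕ} {σ : Equiv.Perm (Fin m)} {b : ℕ} (h : IsCut σ b) (j : Fin m)
    (hj : b ≤ (j : ℕ)) : b ≤ (σ j : ℕ) := by
  classical
  by_contra hlt
  push Not at hlt
  set s : Finset (Fin m) := univ.filter fun i => (i : ℕ) < b with hs
  have hsub : s.image σ ⊆ s := by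
    intro x hx
    obtain ⟨i, hi, rfl⟩ := Finset.mem_image.1 hx
    exact Finset.mem_filter.2 ⟨mem_univ _, h.2 i (Finset.mem_filter.1 hi).2⟩
  have heq : s.image σ = s := by
    apply Finset.eq_of_subset_of_card_le hsub
    rw [Finset.card_image_of_injective _ σ.injective]
  have hmem : σ j ∈ s.image σ := by
    rw [heq]
    exact Finset.mem_filter.2 ⟨mem_univ _, hlt⟩
  obtain ⟨i, hi, hij⟩ := Finset.mem_image.1 hmem
  have := σ.injective hij
  subst this
  have := (Finset.mem_filter.1 hi).2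
  omega

open Classical in
/-- The greedy sequence of cuts. -/
noncomputable def cutSeq (k : ℕ) {m : ℕ} (σ : Equiv.Perm (Fin m)) : ℕ → ℕ
  | 0 => 0
  | i + 1 => Nat.findGreatest (IsCut σ) (cutSeq k σ i + k)

section
variable {k m : ℕ} {σ : Equiv.Perm (Fin m)}

lemma cutSeq_isCut (i : ℕ) : IsCut σ (cutSeq k σ i) := by
  classical
  induction i with
  | zero => exact isCut_zero σ
  | succ i ih =>
    rw [cutSeq]
    exact Nat.findGreatest_spec (P := IsCut σ) (Nat.zero_le _) (isCut_zero σ)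

lemma cutSeq_le (i : ℕ) : cutSeq k σ i ≤ m := (cutSeq_isCut i).1

lemma cutSeq_le_succ (i : ℕ) : cutSeq k σ i ≤ cutSeq k σ (i + 1) := by
  classical
  rw [cutSeq]
  exact Nat.le_findGreatest (by omega) (cutSeq_isCut i)

lemma cutSeq_succ_le (i : ℕ) : cutSeq k σ (i + 1) ≤ cutSeq k σ i + k := by
  classical
  rw [cutSeq]
  exact Nat.findGreatest_le _

lemma cutSeq_mono : Monotone (cutSeq k σ) := monotone_nat_of_le_succ cutSeq_le_succ

lemma cut_le_succ {i b : ℕ} (hb : IsCut σ b) (h : b ≤ cutSeq k σ i + k) :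
    b ≤ cutSeq k σ (i + 1) := by
  classical
  rw [cutSeq]
  exact Nat.le_findGreatest h hb

lemma cutSeq_lt_succ (hs : Small k σ) {i : ℕ} (h : cutSeq k σ i < m) :
    cutSeq k σ i < cutSeq k σ (i + 1) := by
  obtain ⟨b, h1, h2, h3⟩ := hs _ h
  exact h1.trans_le (cut_le_succ h3 h2)

lemma cutSeq_two (hs : Small k σ) (i : ℕ) : min m (cutSeq k σ i + k + 1) ≤ cutSeq k σ (i + 2) := by
  by_cases h : cutSeq k σ (i + 2) ≤ cutSeq k σ i + k
  · have h1 : cutSeq k σ (i + 2) ≤ cutSeq k σ (i + 1) := cut_le_succ (cutSeq_isCut _) h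
    have h2 : ¬ cutSeq k σ (i + 1) < m := fun h3 => by
      have := cutSeq_lt_succ hs h3
      have h4 : cutSeq k σ (i + 1 + 1) = cutSeq k σ (i + 2) := rfl
      omega
    have h3 := cutSeq_le_succ (k := k) (σ := σ) (i + 1)
    have h4 : cutSeq k σ (i + 1 + 1) = cutSeq k σ (i + 2) := rfl
    exact (min_le_left _ _).trans (by omega)
  · exact (min_le_right _ _).trans (by omega)

lemma cutSeq_double (hs : Small k σ) (j : ℕ) : min m (j * (k + 1)) ≤ cutSeq k σ (2 * j) := by
  induction j with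
  | zero => simp
  | succ j ih =>
    have h := cutSeq_two hs (2 * j)
    have h2 : 2 * (j + 1) = 2 * j + 2 := by ring
    rw [h2]
    refine le_trans ?_ h
    have h3 : (j + 1) * (k + 1) = j * (k + 1) + (k + 1) := by ring
    rw [h3]
    rcases le_total m (j * (k + 1)) with h4 | h4
    · rw [min_eq_left h4] at ih
      rw [min_eq_left (by omega), min_eq_left (by omega)]
    · rw [min_eq_right h4] at ih
      exact min_le_min le_rfl (by omega)

end

/-- The interleaved sequence of the first and the last elements of the blocks. -/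
noncomputable def ends (k : ℕ) {m : ℕ} (σ : Equiv.Perm (Fin m)) (l : ℕ) : ℕ :=
  if l % 2 = 0 then cutSeq k σ (l / 2)
  else max (cutSeq k σ (l / 2)) (cutSeq k σ (l / 2 + 1) - 1)

lemma ends_even (k : ℕ) {m : ℕ} (σ : Equiv.Perm (Fin m)) (i : ℕ) :
    ends k σ (2 * i) = cutSeq k σ i := by
  unfold ends
  have h1 : (2 * i) % 2 = 0 := by omega
  have h2 : (2 * i) / 2 = i := by omega
  rw [if_pos h1, h2]

lemma ends_odd (k : ℕ) {m : ℕ} (σ : Equiv.Perm (Fin m)) (i : ℕ) :
    ends k σ (2 * i + 1) = max (cutSeq k σ i) (cutSeq k σ (i + 1) - 1) := by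
  unfold ends
  have h1 : ¬ (2 * i + 1) % 2 = 0 := by omega
  have h2 : (2 * i + 1) / 2 = i := by omega
  rw [if_neg h1, h2]

lemma ends_mono (k : ℕ) {m : ℕ} (σ : Equiv.Perm (Fin m)) : Monotone (ends k σ) := by
  apply monotone_nat_of_le_succ
  intro l
  rcases Nat.even_or_odd' l with ⟨i, h | h⟩
  · subst h
    rw [ends_even, ends_odd]
    exact le_max_left _ _
  · subst h
    have h2 : 2 * i + 1 + 1 = 2 * (i + 1) := by ring
    rw [h2, ends_even, ends_odd]
    have := cutSeq_le_succ (k := k) (σ := σ) i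
    exact max_le this (by omega)

/-- The coarse position. -/
def coarse {m n : ℕ} (g : ℕ) (f : Fin m → Fin n) (j : ℕ) : ℕ :=
  if h : j < m then (f ⟨j, h⟩ : ℕ) / g else n / g

lemma coarse_lt {m n : ℕ} (g : ℕ) (f : Fin m → Fin n) (j : ℕ) : coarse g f j < n / g + 1 := by
  unfold coarse
  split_ifs with h
  · have := Nat.div_le_div_right (c := g) (f ⟨j, h⟩).2.le
    omega
  · omega

lemma coarse_mono {m n : ℕ} (g : ℕ) {f : Fin m → Fin n} (hf : StrictMono f) :
    Monotone (coarse g f) := by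
  intro a b hab
  unfold coarse
  split_ifs with h1 h2 h2
  · apply Nat.div_le_div_right
    exact_mod_cast hf.monotone (show (⟨a, h1⟩ : Fin m) ≤ ⟨b, h2⟩ from hab)
  · exact Nat.div_le_div_right (f ⟨a, h1⟩).2.le
  · omega
  · exact le_rfl

/-- The first index of the `i`-th block. -/
def lo {T : ℕ} (i : Fin T) : Fin (2 * T) := ⟨2 * i, by omega⟩

/-- The last index of the `i`-th block. -/
def hi {T : ℕ} (i : Fin T) : Fin (2 * T) := ⟨2 * i + 1, by omega⟩

/-- The union of the boxes with index in `I`. -/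
def region {n G T : ℕ} (g : ℕ) (P Q : Fin (2 * T) → Fin G) (I : Finset (Fin T)) :
    Finset (Fin n × Fin n) :=
  univ.filter fun x => ∃ i ∈ I, (P (lo i) : ℕ) ≤ (x.1 : ℕ) / g ∧ (x.1 : ℕ) / g ≤ P (hi i) ∧
    (Q (lo i) : ℕ) ≤ (x.2 : ℕ) / g ∧ (x.2 : ℕ) / g ≤ Q (hi i)

/-- **The covering lemma.** -/
lemma cover {n m' k : ℕ} (π : Equiv.Perm (Fin n)) (σ : Equiv.Perm (Fin m'))
    (h : Contained σ π) (hs : Small k σ) (m : ℕ) (hm : m ≤ m') (g T : ℕ)
    (hT : T = 2 * (m / k + 1)) (hk : 0 < k) :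
    ∃ P Q : Fin (2 * T) → Fin (n / g + 1), Monotone P ∧ Monotone Q ∧
      ∀ I : Finset (Fin T), m ≤ hits (region g P Q I) π + k * (univ \ I).card := by
  classical
  obtain ⟨f, hf, hord⟩ := h
  set e : Fin m' → Fin n := fun v => π (f (σ.symm v)) with he
  have hemono : StrictMono e := by
    intro a b hab
    have := (hord (σ.symm a) (σ.symm b)).1 (by simpa using hab)
    exact this
  have hefe : ∀ j, e (σ j) = π (f j) := by intro j; simp [he]
  refine ⟨fun l => ⟨coarse g f (ends k σ l), coarse_lt _ _ _⟩,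
    fun l => ⟨coarse g e (ends k σ l), coarse_lt _ _ _⟩, ?_, ?_, ?_⟩
  · intro a b hab
    exact coarse_mono g hf (ends_mono k σ hab)
  · intro a b hab
    exact coarse_mono g hemono (ends_mono k σ hab)
  intro I
  -- the number of elements in the first `T` blocks
  have hcT : m ≤ cutSeq k σ T := by
    rw [hT]
    refine le_trans ?_ (cutSeq_double hs _)
    apply le_min hm
    have h1 := Nat.lt_div_mul_add (a := m) hk
    have h2 : (m / k + 1) * (k + 1) = m / k * k + k + (m / k + 1) := by ring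
    rw [h2]
    omega
  -- the elements in the blocks of `I`
  set J : Finset ℕ := I.biUnion fun i => Finset.Ico (cutSeq k σ i) (cutSeq k σ (i + 1)) with hJ
  have hJc : J.card = ∑ i ∈ I, (cutSeq k σ (i + 1) - cutSeq k σ i) := by
    rw [hJ, Finset.card_biUnion]
    · apply Finset.sum_congr rfl
      intro i _
      rw [Nat.card_Ico]
    · intro i _ j _ hij
      rw [Function.onFun, Finset.disjoint_left]
      intro x hx hy
      rw [Finset.mem_Ico] at hx hy
      rcases lt_or_gt_of_ne (fun h : (i : ℕ) = j => hij (Fin.ext h)) with h | h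
      · have := cutSeq_mono (k := k) (σ := σ) (show (i : ℕ) + 1 ≤ j from h)
        omega
      · have := cutSeq_mono (k := k) (σ := σ) (show (j : ℕ) + 1 ≤ i from h)
        omega
  have htot : cutSeq k σ T = ∑ i : Fin T, (cutSeq k σ (i + 1) - cutSeq k σ i) := by
    rw [Fin.sum_univ_eq_sum_range (fun i => cutSeq k σ (i + 1) - cutSeq k σ i) T]
    rw [Finset.sum_range_tsub cutSeq_mono]
    simp [cutSeq]
  have hsplit : cutSeq k σ T ≤ J.card + k * (univ \ I).card := by
    rw [htot, hJc, ← Finset.sum_sdiff (Finset.subset_univ I), add_comm]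
    apply Nat.add_le_add_left
    calc ∑ i ∈ univ \ I, (cutSeq k σ (i + 1) - cutSeq k σ i) ≤ ∑ i ∈ univ \ I, k := by
          apply Finset.sum_le_sum
          intro i _
          have := cutSeq_succ_le (k := k) (σ := σ) i
          omega
      _ = k * (univ \ I).card := by rw [Finset.sum_const, smul_eq_mul, mul_comm]
  refine hcT.trans (hsplit.trans (Nat.add_le_add_right ?_ _))
  -- injection of `J` into the points of the graph in the region
  set J' : Finset (Fin m') := univ.filter fun j => ∃ i ∈ I,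
    cutSeq k σ (i : Fin T) ≤ (j : ℕ) ∧ (j : ℕ) < cutSeq k σ ((i : Fin T) + 1) with hJ'
  have hJJ : J ⊆ J'.image (fun j : Fin m' => (j : ℕ)) := by
    intro j hj
    obtain ⟨i, hiI, hi⟩ := Finset.mem_biUnion.1 hj
    have h1 := Finset.mem_Ico.1 hi
    have h2 := cutSeq_le (k := k) (σ := σ) ((i : ℕ) + 1)
    have h3 : j < m' := by omega
    exact Finset.mem_image.2 ⟨⟨j, h3⟩, Finset.mem_filter.2 ⟨mem_univ _, i, hiI, h1⟩, rfl⟩
  refine (Finset.card_le_card hJJ).trans (Finset.card_image_le.trans ?_)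
  unfold hits
  refine Finset.card_le_card_of_injOn (fun j => (f j, π (f j))) ?_ ?_
  · intro j hj
    obtain ⟨i, hiI, h1, h2⟩ := (Finset.mem_filter.1 hj).2
    refine Finset.mem_filter.2 ⟨Finset.mem_filter.2 ⟨mem_univ _, i, hiI, ?_⟩, rfl⟩
    have hcj : coarse g f j = (f j : ℕ) / g := by
      unfold coarse
      rw [dif_pos j.2]
    have hcs : coarse g e (σ j : ℕ) = (π (f j) : ℕ) / g := by
      unfold coarse
      rw [dif_pos (σ j).2]
      have : (⟨(σ j : ℕ), (σ j).2⟩ : Fin m') = σ j := rfl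
      rw [this, hefe]
    have hlo : ends k σ ((lo i : Fin (2 * T)) : ℕ) = cutSeq k σ i := ends_even k σ i
    have hhi : ends k σ ((hi i : Fin (2 * T)) : ℕ) = max (cutSeq k σ i) (cutSeq k σ (i + 1) - 1) :=
      ends_odd k σ i
    have hs1 : (σ j : ℕ) < cutSeq k σ (i + 1) := (cutSeq_isCut (k := k) (σ := σ) (i + 1)).2 j h2
    have hs2 : cutSeq k σ i ≤ (σ j : ℕ) := (cutSeq_isCut (k := k) (σ := σ) i).ge j h1
    refine ⟨?_, ?_, ?_, ?_⟩
    · change coarse g f (ends k σ ((lo i : Fin (2 * T)) : ℕ)) ≤ (f j : ℕ) / g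
      rw [hlo, ← hcj]
      exact coarse_mono g hf h1
    · change (f j : ℕ) / g ≤ coarse g f (ends k σ ((hi i : Fin (2 * T)) : ℕ))
      rw [hhi, ← hcj]
      exact coarse_mono g hf (by omega)
    · change coarse g e (ends k σ ((lo i : Fin (2 * T)) : ℕ)) ≤ (π (f j) : ℕ) / g
      rw [hlo, ← hcs]
      exact coarse_mono g hemono hs2
    · change (π (f j) : ℕ) / g ≤ coarse g e (ends k σ ((hi i : Fin (2 * T)) : ℕ))
      rw [hhi, ← hcs]
      exact coarse_mono g hemono (by omega)
  · intro a _ b _ hab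
    exact hf.injective (congrArg Prod.fst hab)

end Pool.Agent.K9h57.PermClass
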