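import Mathlib
import Pool.Agent.K9h57.PermClass.Chain

set_option autoImplicit false

/-!
# The union bound over the coarse chains
-/

namespace Pool.Agent.K9h57.PermClass

open Finset

open Classical in
/-- The monotone sequences of length `L` with values below `G`. -/
noncomputable def monoSeq (L G : ℕ) : Finset (Fin L → Fin G) := univ.filter fun P => Monotone P

lemma card_monoSeq (L G : ℕ) : (monoSeq L G).card ≤ 2 ^ (L + G) := by
  classical
  have h : (monoSeq L G).card ≤ (univ : Finset (Finset (Fin (L + G)))).card := by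
    refine Finset.card_le_card_of_injOn
      (fun P => univ.image fun i : Fin L =>
        (⟨(i : ℕ) + (P i : ℕ), by have := i.2; have := (P i).2; omega⟩ : Fin (L + G)))
      (fun _ _ => mem_coe.2 (mem_univ _)) ?_
    intro P hP Q hQ hPQ
    have hPm : Monotone P := (Finset.mem_filter.1 hP).2
    have hQm : Monotone Q := (Finset.mem_filter.1 hQ).2
    have key : ∀ R : Fin L → Fin G, Monotone R → StrictMono fun i : Fin L =>
        (⟨(i : ℕ) + (R i : ℕ), by have := i.2; have := (R i).2; omega⟩ : Fin (L + G)) := by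
      intro R hR a b hab
      have h1 : (R a : ℕ) ≤ R b := hR hab.le
      have h2 : (a : ℕ) < b := hab
      show (a : ℕ) + (R a : ℕ) < (b : ℕ) + (R b : ℕ)
      omega
    have hr := (StrictMono.range_inj (key P hPm) (key Q hQm)).1 (by
      have := congrArg (fun s : Finset (Fin (L + G)) => (s : Set (Fin (L + G)))) hPQ
      simpa using this)
    funext i
    have := congrArg Fin.val (congrFun hr i)
    simp only at this
    apply Fin.ext
    omega
  rw [Finset.card_univ, Fintype.card_finset, Fintype.card_fin] at h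
  exact h

/-- The number of `x < n` with `p ≤ x / g ≤ q`. -/
lemma card_strip {n : ℕ} (g p q : ℕ) (hg : 0 < g) :
    ((univ : Finset (Fin n)).filter fun x : Fin n => p ≤ (x : ℕ) / g ∧ (x : ℕ) / g ≤ q).card ≤
      (q - p + 1) * g := by
  classical
  rcases le_or_gt p q with hpq | hpq
  · calc ((univ : Finset (Fin n)).filter fun x : Fin n => p ≤ (x : ℕ) / g ∧ (x : ℕ) / g ≤ q).card
        ≤ (Finset.Ico (p * g) ((q + 1) * g)).card := by
          refine Finset.card_le_card_of_injOn (fun x : Fin n => (x : ℕ)) ?_ ?_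
          · intro x hx
            obtain ⟨h1, h2⟩ := (Finset.mem_filter.1 hx).2
            refine Finset.mem_coe.2 (Finset.mem_Ico.2 ⟨?_, ?_⟩)
            · exact (Nat.le_div_iff_mul_le hg).1 h1
            · have h3 : (x : ℕ) / g < q + 1 := by omega
              exact (Nat.div_lt_iff_lt_mul hg).1 h3
          · intro x _ y _ hxy
            exact Fin.ext hxy
      _ = (q - p + 1) * g := by
          rw [Nat.card_Ico, ← Nat.sub_mul]
          congr 1
          omega
  · have : ((univ : Finset (Fin n)).filter fun x : Fin n => p ≤ (x : ℕ) / g ∧ (x : ℕ) / g ≤ q) =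
        ∅ := by
      apply Finset.filter_eq_empty_iff.2
      intro x _ hx
      omega
    rw [this]
    simp

lemma card_region {n G T : ℕ} (g : ℕ) (hg : 0 < g) (P Q : Fin (2 * T) → Fin G)
    (I : Finset (Fin T)) :
    (region (n := n) g P Q I).card ≤
      ∑ i ∈ I, (((P (hi i) : ℕ) - P (lo i) + 1) * g) * (((Q (hi i) : ℕ) - Q (lo i) + 1) * g) := by
  classical
  calc (region (n := n) g P Q I).card
      ≤ (I.biUnion fun i =>
          ((univ : Finset (Fin n)).filter fun x : Fin n => (P (lo i) : ℕ) ≤ (x : ℕ) / g ∧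
            (x : ℕ) / g ≤ P (hi i)) ×ˢ
          ((univ : Finset (Fin n)).filter fun x : Fin n => (Q (lo i) : ℕ) ≤ (x : ℕ) / g ∧
            (x : ℕ) / g ≤ Q (hi i))).card := by
        apply Finset.card_le_card
        intro x hx
        obtain ⟨i, hi, h1, h2, h3, h4⟩ := (Finset.mem_filter.1 hx).2
        refine Finset.mem_biUnion.2 ⟨i, hi, Finset.mem_product.2 ⟨?_, ?_⟩⟩
        · exact Finset.mem_filter.2 ⟨mem_univ _, h1, h2⟩
        · exact Finset.mem_filter.2 ⟨mem_univ _, h3, h4⟩
    _ ≤ ∑ i ∈ I, _ := Finset.card_biUnion_le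
    _ ≤ _ := by
        apply Finset.sum_le_sum
        intro i _
        rw [Finset.card_product]
        exact Nat.mul_le_mul (card_strip g _ _ hg) (card_strip g _ _ hg)

/-- The total length of the intervals of a monotone sequence. -/
lemma sum_intervals {N T : ℕ} (P : Fin (2 * T) → Fin (N + 1)) (hP : Monotone P) :
    ∑ i : Fin T, ((P (hi i) : ℕ) - P (lo i)) ≤ N := by
  set p : ℕ → ℕ := fun l => if h : l < 2 * T then (P ⟨l, h⟩ : ℕ) else N with hp
  have hpm : Monotone p := by
    intro a b hab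
    simp only [hp]
    split_ifs with h1 h2 h2
    · exact hP (show (⟨a, h1⟩ : Fin (2 * T)) ≤ ⟨b, h2⟩ from hab)
    · have := (P ⟨a, h1⟩).2
      omega
    · omega
    · exact le_rfl
  have hpN : ∀ l, p l ≤ N := by
    intro l
    simp only [hp]
    split_ifs with h1
    · have := (P ⟨l, h1⟩).2
      omega
    · exact le_rfl
  calc ∑ i : Fin T, ((P (hi i) : ℕ) - P (lo i))
      = ∑ i : Fin T, (p (2 * (i : ℕ) + 1) - p (2 * (i : ℕ))) := by
        apply Finset.sum_congr rfl
        intro i _
        have h1 : 2 * (i : ℕ) + 1 < 2 * T := by have := i.2; omega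
        have h2 : 2 * (i : ℕ) < 2 * T := by omega
        simp only [hp, dif_pos h1, dif_pos h2]
        rfl
    _ = ∑ i ∈ range T, (p (2 * i + 1) - p (2 * i)) :=
        Fin.sum_univ_eq_sum_range (fun i => p (2 * i + 1) - p (2 * i)) T
    _ ≤ ∑ i ∈ range T, (p (2 * (i + 1)) - p (2 * i)) := by
        apply Finset.sum_le_sum
        intro i _
        have := hpm (show 2 * i + 1 ≤ 2 * (i + 1) by omega)
        omega
    _ = p (2 * T) - p (2 * 0) :=
        Finset.sum_range_tsub (f := fun i => p (2 * i))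
          (fun a b hab => hpm (by omega)) T
    _ ≤ N := by
        have := hpN (2 * T)
        omega

open Classical in
/-- The permutations containing a pattern of size at least `m` with components of size at most
`k`. -/
noncomputable def bad (k m n : ℕ) : Finset (Equiv.Perm (Fin n)) :=
  univ.filter fun π => ∃ m', m ≤ m' ∧ ∃ σ : Equiv.Perm (Fin m'), Small k σ ∧ Contained σ π

/-- The bound for one block. -/
lemma block_bound {κ s y g n A B v : ℝ} (hn : 0 < n) (hg : 0 < g) (hy : 0 < y) (hκ : 0 < κ)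
    (hs0 : 0 ≤ s) (hss : s ^ 2 = κ * y / n) (hA : 0 ≤ A) (hB : 0 ≤ B)
    (hv2 : v ^ 2 ≤ κ * (y * (A * g * (B * g)) / n)) : v ≤ s * (g * (A + B) / 2) := by
  apply le_of_sq_le_sq _ (by positivity)
  refine hv2.trans ?_
  rw [mul_pow, hss]
  have h4 : κ * (y * (A * g * (B * g)) / n) = (κ * y / n) * (g ^ 2 * (A * B)) := by
    ring
  rw [h4]
  apply mul_le_mul_of_nonneg_left _ (by positivity)
  have h5 : (g * (A + B) / 2) ^ 2 = g ^ 2 * ((A + B) ^ 2 / 4) := by ring
  rw [h5]
  apply mul_le_mul_of_nonneg_left _ (by positivity)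
  nlinarith [sq_nonneg (A - B)]

/-- The sum over the blocks. -/
lemma sum_bound {T : ℕ} {κ s y g n N : ℝ} (A B : Fin T → ℝ) (I : Finset (Fin T)) (hn : 0 < n)
    (hg : 0 < g) (hy : 0 < y) (hκ : 0 < κ) (hs0 : 0 ≤ s) (hss : s ^ 2 = κ * y / n)
    (hA : ∀ i, 0 ≤ A i) (hB : ∀ i, 0 ≤ B i)
    (hI : ∀ i, i ∈ I ↔ y * (A i * g * (B i * g)) / n ≤ κ)
    (hAs : ∑ i, A i ≤ N) (hBs : ∑ i, B i ≤ N) :
    ∑ i ∈ I, y * (A i * g * (B i * g)) / n + κ * ((univ \ I).card : ℝ) ≤ s * (g * N) := by
  have hθ0 : ∀ i, 0 ≤ y * (A i * g * (B i * g)) / n := by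
    intro i
    have := hA i
    have := hB i
    positivity
  have h3 : ∑ i ∈ I, y * (A i * g * (B i * g)) / n ≤ ∑ i ∈ I, s * (g * (A i + B i) / 2) := by
    apply Finset.sum_le_sum
    intro i hi'
    apply block_bound hn hg hy hκ hs0 hss (hA i) (hB i)
    have h1 := (hI i).1 hi'
    nlinarith [hθ0 i]
  have h4 : κ * ((univ \ I).card : ℝ) ≤ ∑ i ∈ univ \ I, s * (g * (A i + B i) / 2) := by
    have h5 : κ * ((univ \ I).card : ℝ) = ∑ i ∈ univ \ I, κ := by
      rw [Finset.sum_const, nsmul_eq_mul]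
      ring
    rw [h5]
    apply Finset.sum_le_sum
    intro i hi'
    apply block_bound hn hg hy hκ hs0 hss (hA i) (hB i)
    have h6 : ¬ y * (A i * g * (B i * g)) / n ≤ κ := fun h7 =>
      (Finset.mem_sdiff.1 hi').2 ((hI i).2 h7)
    push Not at h6
    nlinarith
  have h5 := Finset.sum_sdiff (Finset.subset_univ I) (f := fun i => s * (g * (A i + B i) / 2))
  have h6 : ∑ i : Fin T, s * (g * (A i + B i) / 2) ≤ s * (g * N) := by
    rw [← Finset.mul_sum]
    apply mul_le_mul_of_nonneg_left _ hs0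
    have h8 : ∑ i : Fin T, (g * (A i + B i) / 2) = g * (∑ i, A i + ∑ i, B i) / 2 := by
      rw [← Finset.sum_add_distrib, Finset.mul_sum, Finset.sum_div]
    rw [h8]
    nlinarith
  linarith

/-- The length of the `i`-th interval. -/
def len {G T : ℕ} (P : Fin (2 * T) → Fin G) (i : Fin T) : ℕ := (P (hi i) : ℕ) - P (lo i) + 1

lemma sum_len {N T : ℕ} (P : Fin (2 * T) → Fin (N + 1)) (hP : Monotone P) :
    ∑ i : Fin T, ((len P i : ℕ) : ℝ) ≤ ((N + T : ℕ) : ℝ) := by
  have h8 : ∑ i : Fin T, len P i ≤ N + T := by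
    unfold len
    rw [Finset.sum_add_distrib]
    have := sum_intervals P hP
    simp only [Finset.sum_const, Finset.card_univ, Fintype.card_fin, smul_eq_mul, mul_one]
    omega
  exact_mod_cast h8

open Classical in
/-- The small blocks. -/
noncomputable def smallBlocks {G T : ℕ} (n g : ℕ) (κ y : ℝ) (P Q : Fin (2 * T) → Fin G) :
    Finset (Fin T) :=
  univ.filter fun i => y * ((len P i : ℝ) * g * ((len Q i : ℝ) * g)) / n ≤ κ

/-- The bound for one coarse chain. -/
lemma card_code {n k m g T : ℕ} (hn : 0 < n) (hk : 0 < k) (hg : 0 < g) (hm : 2 * m ≤ n)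
    (y : ℝ) (hy : 0 < y) (P Q : Fin (2 * T) → Fin (n / g + 1)) (hP : Monotone P)
    (hQ : Monotone Q) (I : Finset (Fin T))
    (hI : I = smallBlocks n g (k * Real.log (1 + y)) y P Q) :
    (((univ : Finset (Equiv.Perm (Fin n))).filter fun π =>
        m ≤ hits (region g P Q I) π + k * (univ \ I).card).card : ℝ) ≤
      (n.factorial : ℝ) * Real.exp (-(m * Real.log (1 + y)) +
        Real.sqrt (k * Real.log (1 + y) * y / n) * (n + g * T) + 2 * (m : ℝ) ^ 2 / n) := by
  classical
  have hnR : (0 : ℝ) < n := by exact_mod_cast hn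
  have hkR : (0 : ℝ) < k := by exact_mod_cast hk
  have hgR : (0 : ℝ) < g := by exact_mod_cast hg
  set α : ℝ := Real.log (1 + y) with hα
  have hα0 : 0 < α := Real.log_pos (by linarith)
  set s : ℝ := Real.sqrt (k * α * y / n) with hs
  have hs0 : 0 ≤ s := Real.sqrt_nonneg _
  have hss : s ^ 2 = k * α * y / n := Real.sq_sqrt (by positivity)
  set c := (univ \ I).card with hc
  set r := m - k * c with hr
  have htail := tail hn (region (n := n) g P Q I) r (by omega) y hy.le
  have hsub : (((univ : Finset (Equiv.Perm (Fin n))).filter fun π =>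
      m ≤ hits (region g P Q I) π + k * c).card : ℝ) ≤
      (((univ : Finset (Equiv.Perm (Fin n))).filter fun π =>
        r ≤ hits (region g P Q I) π).card : ℝ) := by
    have : ((univ : Finset (Equiv.Perm (Fin n))).filter fun π =>
        m ≤ hits (region g P Q I) π + k * c) ⊆
        ((univ : Finset (Equiv.Perm (Fin n))).filter fun π =>
          r ≤ hits (region g P Q I) π) := by
      intro π hπ
      have := (Finset.mem_filter.1 hπ).2
      exact Finset.mem_filter.2 ⟨mem_univ _, by omega⟩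
    exact_mod_cast Finset.card_le_card this
  refine hsub.trans ?_
  -- the tail in exponential form
  have hexp : (1 + y) ^ r = Real.exp (r * α) := by
    rw [hα, Real.exp_nat_mul, Real.exp_log (by linarith)]
  have h1 : (((univ : Finset (Equiv.Perm (Fin n))).filter fun π =>
        r ≤ hits (region g P Q I) π).card : ℝ) ≤
      (n.factorial : ℝ) * Real.exp (y * (region (n := n) g P Q I).card / n +
        2 * (r : ℝ) ^ 2 / n - r * α) := by
    rw [Real.exp_sub, ← hexp, ← mul_div_assoc, le_div_iff₀ (by positivity)]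
    exact htail
  refine h1.trans (mul_le_mul_of_nonneg_left (Real.exp_le_exp.2 ?_) (by positivity))
  -- the exponents
  have hr2 : 2 * (r : ℝ) ^ 2 / n ≤ 2 * (m : ℝ) ^ 2 / n := by
    apply div_le_div_of_nonneg_right _ hnR.le
    have : (r : ℝ) ≤ m := by exact_mod_cast (by omega : r ≤ m)
    nlinarith [(Nat.cast_nonneg r : (0 : ℝ) ≤ r)]
  have hrα : (m : ℝ) * α - k * α * c ≤ r * α := by
    have h2 : (m : ℝ) - k * c ≤ r := by
      have : (m : ℝ) ≤ r + k * c := by exact_mod_cast (by omega : m ≤ r + k * c)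
      linarith
    nlinarith
  have harea : y * ((region (n := n) g P Q I).card : ℝ) / n ≤
      ∑ i ∈ I, y * ((len P i : ℝ) * g * ((len Q i : ℝ) * g)) / n := by
    have h2 : ((region (n := n) g P Q I).card : ℝ) ≤
        ∑ i ∈ I, ((len P i : ℝ) * g * ((len Q i : ℝ) * g)) := by
      have := card_region (n := n) g hg P Q I
      have h3 : ((region (n := n) g P Q I).card : ℝ) ≤
        ((∑ i ∈ I, (len P i * g) * (len Q i * g) : ℕ) : ℝ) := by exact_mod_cast this
      push_cast at h3
      exact h3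
    rw [← Finset.sum_div, ← Finset.mul_sum]
    apply div_le_div_of_nonneg_right _ hnR.le
    exact mul_le_mul_of_nonneg_left h2 hy.le
  have hsum := sum_bound (κ := k * α) (s := s) (y := y) (g := g) (n := n)
    (N := ((n / g + T : ℕ) : ℝ)) (fun i => (len P i : ℝ)) (fun i => (len Q i : ℝ)) I hnR hgR hy
    (by positivity) hs0 hss (fun i => Nat.cast_nonneg _) (fun i => Nat.cast_nonneg _)
    (by
      intro i
      rw [hI]
      simp [smallBlocks])
    (sum_len P hP) (sum_len Q hQ)
  have h9 : (g : ℝ) * ((n / g + T : ℕ) : ℝ) ≤ n + g * T := by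
    have : g * (n / g + T) ≤ n + g * T := by
      rw [mul_add]
      exact Nat.add_le_add_right (Nat.mul_div_le n g) _
    exact_mod_cast this
  have h10 : s * ((g : ℝ) * ((n / g + T : ℕ) : ℝ)) ≤ s * (n + g * T) :=
    mul_le_mul_of_nonneg_left h9 hs0
  linarith

/-- **The union bound.** -/
lemma card_bad {n k m g T : ℕ} (hn : 0 < n) (hk : 0 < k) (hg : 0 < g) (hm : 2 * m ≤ n)
    (hT : T = 2 * (m / k + 1)) (y : ℝ) (hy : 0 < y) :
    ((bad k m n).card : ℝ) ≤ (n.factorial : ℝ) * ((2 : ℝ) ^ (2 * (2 * T + (n / g + 1))) *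
      Real.exp (-(m * Real.log (1 + y)) +
        Real.sqrt (k * Real.log (1 + y) * y / n) * (n + g * T) + 2 * (m : ℝ) ^ 2 / n)) := by
  classical
  set M := monoSeq (2 * T) (n / g + 1) with hM
  set E : ℝ := Real.exp (-(m * Real.log (1 + y)) +
        Real.sqrt (k * Real.log (1 + y) * y / n) * (n + g * T) + 2 * (m : ℝ) ^ 2 / n) with hE
  have hunion : bad k m n ⊆ (M ×ˢ M).biUnion fun PQ =>
      (univ : Finset (Equiv.Perm (Fin n))).filter fun π =>
        m ≤ hits (region g PQ.1 PQ.2
          (smallBlocks n g (k * Real.log (1 + y)) y PQ.1 PQ.2)) π +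
          k * (univ \ (smallBlocks n g (k * Real.log (1 + y)) y PQ.1 PQ.2)).card := by
    intro π hπ
    obtain ⟨m', hm', σ, hσ, hcont⟩ := (Finset.mem_filter.1 hπ).2
    obtain ⟨P, Q, hP, hQ, hPQ⟩ := cover π σ hcont hσ m hm' g T hT hk
    refine Finset.mem_biUnion.2 ⟨(P, Q), Finset.mem_product.2 ⟨?_, ?_⟩,
      Finset.mem_filter.2 ⟨mem_univ _, hPQ _⟩⟩
    · exact Finset.mem_filter.2 ⟨mem_univ _, hP⟩
    · exact Finset.mem_filter.2 ⟨mem_univ _, hQ⟩
  have hMc : (M.card : ℝ) ≤ (2 : ℝ) ^ (2 * T + (n / g + 1)) := by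
    exact_mod_cast card_monoSeq (2 * T) (n / g + 1)
  have hstep : ((bad k m n).card : ℝ) ≤ ∑ PQ ∈ M ×ˢ M, (n.factorial : ℝ) * E := by
    have h1 := (Finset.card_le_card hunion).trans Finset.card_biUnion_le
    have h2 : ((bad k m n).card : ℝ) ≤ ((∑ PQ ∈ M ×ˢ M,
        ((univ : Finset (Equiv.Perm (Fin n))).filter fun π =>
          m ≤ hits (region g PQ.1 PQ.2
            (smallBlocks n g (k * Real.log (1 + y)) y PQ.1 PQ.2)) π +
            k * (univ \ (smallBlocks n g (k * Real.log (1 + y)) y PQ.1 PQ.2)).card).card : ℕ) :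
              ℝ) := by
      exact_mod_cast h1
    refine h2.trans ?_
    rw [Nat.cast_sum]
    apply Finset.sum_le_sum
    intro PQ hPQ
    exact card_code hn hk hg hm y hy PQ.1 PQ.2
      (Finset.mem_filter.1 (Finset.mem_product.1 hPQ).1).2
      (Finset.mem_filter.1 (Finset.mem_product.1 hPQ).2).2 _ rfl
  refine hstep.trans ?_
  calc ∑ PQ ∈ M ×ˢ M, (n.factorial : ℝ) * E
      = ((M.card : ℝ) * M.card) * ((n.factorial : ℝ) * E) := by
        rw [Finset.sum_const, Finset.card_product, nsmul_eq_mul]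
        push_cast
        ring
    _ ≤ ((2 : ℝ) ^ (2 * T + (n / g + 1)) * (2 : ℝ) ^ (2 * T + (n / g + 1))) *
          ((n.factorial : ℝ) * E) := by
        apply mul_le_mul_of_nonneg_right _ (by positivity)
        exact mul_le_mul hMc hMc (by positivity) (by positivity)
    _ = _ := by
        rw [← pow_add, ← two_mul]
        ring

end Pool.Agent.K9h57.PermClass
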