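import Mathlib
import Pool.Agent.K9h57.PermClass.Count

set_option autoImplicit false

/-!
# The union bound for large `n`
-/

namespace Pool.Agent.K9h57.PermClass

open Finset Filter Topology

/-- The threshold `⌈(1 + δ) √(k n)⌉`. -/
noncomputable def thr (δ : ℝ) (k n : ℕ) : ℕ := ⌈(1 + δ) * Real.sqrt ((k : ℝ) * n)⌉₊

lemma card_bad_asym {δ : ℝ} (hδ : 0 < δ) (hδ1 : δ ≤ 1) {k n : ℕ} (hk : 140 / δ ^ 3 ≤ k)
    (hn : 64 * k ≤ n) :
    ((bad k (thr δ k n) n).card : ℝ) ≤
      (n.factorial : ℝ) * Real.exp (11 * k + 20 - δ ^ 2 * Real.sqrt ((k : ℝ) * n) / 20) := by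
  have hδ3 : 0 < δ ^ 3 := by positivity
  have hkδ : 140 ≤ k * δ ^ 3 := by rwa [div_le_iff₀ hδ3] at hk
  have hkR : (140 : ℝ) ≤ k := by
    have h1 : δ ^ 3 ≤ 1 := pow_le_one₀ hδ.le hδ1
    have h2 : (k : ℝ) * δ ^ 3 ≤ k * 1 := mul_le_mul_of_nonneg_left h1 (Nat.cast_nonneg k)
    linarith
  have hk0 : 0 < k := by
    have : (0 : ℝ) < k := by linarith
    exact_mod_cast this
  have hn0 : 0 < n := by omega
  have hnR : (64 : ℝ) * k ≤ n := by exact_mod_cast hn
  have hnpos : (0 : ℝ) < n := by exact_mod_cast hn0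
  have hkpos : (0 : ℝ) < k := by exact_mod_cast hk0
  set x : ℝ := Real.sqrt ((k : ℝ) * n) with hx
  have hxx : x ^ 2 = k * n := Real.sq_sqrt (by positivity)
  have hx0 : 0 ≤ x := Real.sqrt_nonneg _
  have hxk : 8 * (k : ℝ) ≤ x := by
    apply le_of_sq_le_sq _ hx0
    rw [hxx]
    nlinarith
  have hx1 : 1120 ≤ x := by linarith
  have hxn : 8 * x ≤ n := by
    apply le_of_sq_le_sq _ hnpos.le
    rw [mul_pow, hxx]
    nlinarith
  set m : ℕ := thr δ k n with hm
  have hm1 : (1 + δ) * x ≤ m := Nat.le_ceil _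
  have hm2 : (m : ℝ) ≤ (1 + δ) * x + 1 := (Nat.ceil_lt_add_one (by positivity)).le
  have hδx : δ * x ≤ x := by nlinarith
  have hm4 : (m : ℝ) ≤ 2 * x + 1 := by nlinarith
  set g : ℕ := ⌈δ / 16 * x⌉₊ with hg
  have hxpos : 0 < x := by linarith
  have hg1 : δ / 16 * x ≤ g := Nat.le_ceil _
  have hg2 : (g : ℝ) ≤ δ / 16 * x + 1 := (Nat.ceil_lt_add_one (by positivity)).le
  have hg0 : 0 < g := Nat.ceil_pos.2 (by positivity)
  have hgpos : (0 : ℝ) < g := by exact_mod_cast hg0
  set T : ℕ := 2 * (m / k + 1) with hT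
  have hmn : 2 * m ≤ n := by
    have : (2 : ℝ) * m ≤ n := by nlinarith
    exact_mod_cast this
  have hTk : (T : ℝ) * k ≤ 2 * m + 2 * k := by
    have h1 : m / k * k ≤ m := Nat.div_mul_le_self m k
    have h2 : T * k ≤ 2 * m + 2 * k := by
      rw [hT]
      have : 2 * (m / k + 1) * k = 2 * (m / k * k) + 2 * k := by ring
      rw [this]
      omega
    exact_mod_cast h2
  -- constants
  set α : ℝ := Real.log (1 + δ) with hα
  have hα1 : 2 * δ / (δ + 2) ≤ α := Real.le_log_one_add_of_nonneg hδ.le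
  have hα3 : 2 / 3 * δ ≤ α := by
    refine le_trans ?_ hα1
    rw [le_div_iff₀ (by linarith)]
    nlinarith
  have hα2 : α ≤ δ := by
    have := Real.log_le_sub_one_of_pos (x := 1 + δ) (by linarith)
    rw [hα]
    linarith
  have hα0 : 0 < α := by nlinarith
  -- the main bound
  have hmain := card_bad (T := T) hn0 hk0 hg0 hmn hT δ hδ
  refine hmain.trans (mul_le_mul_of_nonneg_left ?_ (by positivity))
  -- the number of codes
  have hcodes : (2 : ℝ) ^ (2 * (2 * T + (n / g + 1))) ≤ Real.exp (6 / 25 * δ ^ 2 * x + 10) := by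
    have h1 : (2 : ℝ) ^ (2 * (2 * T + (n / g + 1))) =
        Real.exp (((2 * (2 * T + (n / g + 1)) : ℕ) : ℝ) * Real.log 2) := by
      rw [Real.exp_nat_mul, Real.exp_log (by norm_num)]
    rw [h1]
    apply Real.exp_le_exp.2
    have h2 : ((n / g : ℕ) : ℝ) * δ ≤ 16 * (x / k) := by
      have h3 : ((n / g : ℕ) : ℝ) ≤ n / g := Nat.cast_div_le
      have h4 : (n : ℝ) / g * δ ≤ 16 * (x / k) := by
        rw [div_mul_eq_mul_div, ← mul_div_assoc, div_le_div_iff₀ hgpos hkpos]
        have h5 : x * x = k * n := by rw [← hxx]; ring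
        nlinarith
      have := mul_le_mul_of_nonneg_right h3 hδ.le
      linarith
    have h4 : (T : ℝ) ≤ 4 * (x / k) + 3 := by
      have h5 : (T : ℝ) ≤ (2 * m + 2 * k) / k := by
        rw [le_div_iff₀ hkpos]
        exact hTk
      refine h5.trans ?_
      rw [div_le_iff₀ hkpos]
      have h6 : (4 * (x / k) + 3) * k = 4 * x + 3 * k := by
        field_simp
      rw [h6]
      linarith
    -- `x / k ≤ δ ^ 3 x / 140`
    have h6 : x / k ≤ δ ^ 3 * x / 140 := by
      rw [div_le_div_iff₀ hkpos (by norm_num)]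
      nlinarith
    have hxk0 : 0 ≤ x / k := by positivity
    have h7 : ((2 * (2 * T + (n / g + 1)) : ℕ) : ℝ) * δ ≤ 48 * (x / k) + 14 * δ := by
      push_cast
      nlinarith
    have h7' : ((2 * (2 * T + (n / g + 1)) : ℕ) : ℝ) ≤ 12 / 35 * δ ^ 2 * x + 14 := by
      have h8 : ((2 * (2 * T + (n / g + 1)) : ℕ) : ℝ) * δ ≤ (12 / 35 * δ ^ 2 * x + 14) * δ := by
        refine h7.trans ?_
        have : 48 * (x / k) ≤ 48 * (δ ^ 3 * x / 140) := by linarith
        have h9 : (12 / 35 * δ ^ 2 * x + 14) * δ = 48 * (δ ^ 3 * x / 140) + 14 * δ := by ring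
        rw [h9]
        linarith
      exact le_of_mul_le_mul_right h8 hδ
    have hl := Real.log_two_lt_d9
    have hl0 : 0 < Real.log 2 := Real.log_pos (by norm_num)
    have h10 : ((2 * (2 * T + (n / g + 1)) : ℕ) : ℝ) * Real.log 2 ≤
        (12 / 35 * δ ^ 2 * x + 14) * (7 / 10) := by
      apply mul_le_mul h7' (by linarith) hl0.le (by positivity)
    refine h10.trans ?_
    linarith
  -- the exponent
  have hs : Real.sqrt (k * α * δ / n) ≤ (1 + δ / 4) * α * x / n := by
    apply Real.sqrt_le_iff.2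
    refine ⟨by positivity, ?_⟩
    have h1 : ((1 + δ / 4) * α * x / n) ^ 2 = (1 + δ / 4) ^ 2 * α ^ 2 * k / n := by
      rw [div_pow, mul_pow, mul_pow, hxx]
      field_simp
    rw [h1]
    apply div_le_div_of_nonneg_right _ hnpos.le
    have h2 : δ ≤ (1 + δ / 4) ^ 2 * α := by
      have h3 : (1 + δ / 2) * (2 * δ / (δ + 2)) = δ := by
        field_simp
        ring
      have h4 : (1 + δ / 2) * (2 * δ / (δ + 2)) ≤ (1 + δ / 2) * α :=
        mul_le_mul_of_nonneg_left hα1 (by positivity)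
      nlinarith
    have h5 : (k : ℝ) * α * δ ≤ (k * α) * ((1 + δ / 4) ^ 2 * α) :=
      mul_le_mul_of_nonneg_left h2 (by positivity)
    nlinarith
  have hE : Real.sqrt (k * α * δ / n) * (n + g * T) ≤
      (1 + δ / 4) * α * ((1 + δ / 4) * x + k + 6) := by
    have h1 : (0 : ℝ) ≤ n + g * T := by positivity
    refine (mul_le_mul_of_nonneg_right hs h1).trans ?_
    have h2 : (1 + δ / 4) * α * x / n * (n + g * T) =
        (1 + δ / 4) * α * (x * (n + g * T) / n) := by ring
    rw [h2]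
    apply mul_le_mul_of_nonneg_left _ (by positivity)
    rw [div_le_iff₀ hnpos]
    -- multiply by `k`
    have h3 : (g : ℝ) * (T * k) ≤ (δ / 16 * x + 1) * (2 * ((1 + δ) * x) + 2 + 2 * k) := by
      apply mul_le_mul hg2 (by linarith) (by positivity) (by positivity)
    have h4 : x * (n + g * T) * k ≤ ((1 + δ / 4) * x + k + 6) * n * k := by
      have h5 : ((1 + δ / 4) * x + k + 6) * n * k = ((1 + δ / 4) * x + k + 6) * x ^ 2 := by
        rw [hxx]; ring
      have h6 : x * (n + g * T) * k = x * (x ^ 2 + g * (T * k)) := by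
        rw [hxx]; ring
      rw [h5, h6]
      have h7 : x ^ 2 + g * (T * k) ≤ ((1 + δ / 4) * x + k + 6) * x := by
        have h8 : (δ / 16 * x + 1) * (2 * ((1 + δ) * x) + 2 + 2 * k) ≤
            (δ / 4 * x + k + 6) * x := by
          have e1 : (δ / 16 * x + 1) * (2 * ((1 + δ) * x) + 2 + 2 * k) =
              (δ * (1 + δ) / 8) * x ^ 2 + (δ / 8 + k * δ / 8 + 2 * (1 + δ)) * x + (2 + 2 * k) := by
            ring
          have e2 : (δ * (1 + δ) / 8) * x ^ 2 ≤ (δ / 4) * x ^ 2 := by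
            apply mul_le_mul_of_nonneg_right _ (by positivity)
            nlinarith
          have e3 : (δ / 8 + k * δ / 8 + 2 * (1 + δ)) * x ≤ (5 + k / 8) * x := by
            apply mul_le_mul_of_nonneg_right _ hx0
            nlinarith
          have e4 : 2 + 2 * (k : ℝ) ≤ 1 * x := by linarith
          rw [e1]
          nlinarith
        nlinarith
      nlinarith
    exact le_of_mul_le_mul_right h4 hkpos
  have hm3 : 2 * (m : ℝ) ^ 2 / n ≤ 9 * k := by
    rw [div_le_iff₀ hnpos]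
    have h1 : (m : ℝ) ≤ 2.1 * x := by linarith
    have h2 : (m : ℝ) ^ 2 ≤ (2.1 * x) ^ 2 := by
      apply pow_le_pow_left₀ (Nat.cast_nonneg m) h1
    nlinarith
  have hmα : (1 + δ) * x * α ≤ m * α := mul_le_mul_of_nonneg_right hm1 hα0.le
  calc (2 : ℝ) ^ (2 * (2 * T + (n / g + 1))) *
        Real.exp (-(m * α) + Real.sqrt (k * α * δ / n) * (n + g * T) +
          2 * (m : ℝ) ^ 2 / n)
      ≤ Real.exp (6 / 25 * δ ^ 2 * x + 10) * Real.exp (-(m * α) +
          Real.sqrt (k * α * δ / n) * (n + g * T) + 2 * (m : ℝ) ^ 2 / n) :=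
        mul_le_mul_of_nonneg_right hcodes (Real.exp_pos _).le
    _ ≤ Real.exp (11 * k + 20 - δ ^ 2 * x / 20) := by
        rw [← Real.exp_add]
        apply Real.exp_le_exp.2
        have h1 : (1 + δ / 4) * α * ((1 + δ / 4) * x + k + 6) ≤
            (1 + δ / 4) ^ 2 * (α * x) + 5 / 4 * (k + 6) := by
          have h2 : (1 + δ / 4) * α ≤ 5 / 4 := by nlinarith
          have h3 : (1 + δ / 4) * α * (k + 6) ≤ 5 / 4 * (k + 6) :=
            mul_le_mul_of_nonneg_right h2 (by positivity)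
          nlinarith
        -- the main term
        have h2 : 7 / 24 * δ ^ 2 * x ≤ ((1 + δ) - (1 + δ / 4) ^ 2) * (α * x) := by
          have h3 : 7 / 16 * δ ≤ (1 + δ) - (1 + δ / 4) ^ 2 := by nlinarith
          have h4 : 2 / 3 * δ * x ≤ α * x := mul_le_mul_of_nonneg_right hα3 hx0
          calc 7 / 24 * δ ^ 2 * x = (7 / 16 * δ) * (2 / 3 * δ * x) := by ring
            _ ≤ ((1 + δ) - (1 + δ / 4) ^ 2) * (α * x) := by
                apply mul_le_mul h3 h4 (by positivity) (by nlinarith)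
        have h5 : 0 ≤ δ ^ 2 * x := by positivity
        nlinarith

end Pool.Agent.K9h57.PermClass
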