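import Mathlib
import Pool.Agent.K9h57.PermClass.Chain

set_option autoImplicit false

/-!
# The class of the permutations with components of size at most `k` and its finite basis
-/

namespace Pool.Agent.K9h57.PermClass

open Finset

/-- `Av B n`: the set of the permutations of length `n` which contain no element of `B`, where `B` is
a set of permutations of arbitrary lengths. -/
def Av (B : Set (Σ k : ℕ, Equiv.Perm (Fin k))) (n : ℕ) : Set (Equiv.Perm (Fin n)) :=
  {π | ∀ β ∈ B, ¬ Contained β.2 π}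

/-- `σ` is sum-indecomposable: it has no cut `b` with `0 < b < m`. -/
def Indec {m : ℕ} (σ : Equiv.Perm (Fin m)) : Prop := ∀ b, 0 < b → b < m → ¬ IsCut σ b

/-- The sum-indecomposable permutations of length `k + 1`. -/
def basis (k : ℕ) : Set (Σ k : ℕ, Equiv.Perm (Fin k)) := {β | β.1 = k + 1 ∧ Indec β.2}

/-- If all the values at positions below `j` are smaller than all the values at the other positions
then `j` is a cut. -/
lemma isCut_of_lt {N : ℕ} (β : Equiv.Perm (Fin N)) (j : Fin N)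
    (h : ∀ i < j, ∀ i', j ≤ i' → β i < β i') : IsCut β j := by
  classical
  refine ⟨j.2.le, fun i hi => ?_⟩
  have hsub : (Finset.Ici j).image β ⊆ Finset.Ioi (β i) := by
    intro v hv
    obtain ⟨i', hi', rfl⟩ := Finset.mem_image.1 hv
    exact Finset.mem_Ioi.2 (h i hi i' (Finset.mem_Ici.1 hi'))
  have hc := Finset.card_le_card hsub
  rw [Finset.card_image_of_injective _ β.injective, Fin.card_Ici, Fin.card_Ioi] at hc
  have h1 := j.2
  have h2 := (β i).2
  omega

/-- A permutation with components of size at most `k` contains no sum-indecomposable permutation of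
length `k + 1`. -/
lemma small_not_contained {k n : ℕ} {π : Equiv.Perm (Fin n)} (h : Small k π)
    {β : Equiv.Perm (Fin (k + 1))} (hβ : Indec β) : ¬ Contained β π := by
  rintro ⟨f, hf, hord⟩
  -- a cut of `π` between the first and the last element
  obtain ⟨b, h1, h2, h3⟩ := h (f 0) (f 0).2
  have hlast : ∀ i : ℕ, ∀ hi : i < k + 1, ((f 0 : Fin n) : ℕ) + i ≤ f ⟨i, hi⟩ := by
    intro i
    induction i with
    | zero => intro hi; exact le_rfl
    | succ i ih =>
      intro hi
      have h4 := ih (by omega)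
      have h5 : f ⟨i, by omega⟩ < f ⟨i + 1, hi⟩ := hf (by simp [Fin.lt_def])
      have h6 : ((f ⟨i, by omega⟩ : Fin n) : ℕ) < f ⟨i + 1, hi⟩ := h5
      omega
  have hex : ∃ j : ℕ, ∃ hj : j < k + 1, b ≤ (f ⟨j, hj⟩ : ℕ) :=
    ⟨k, by omega, by have := hlast k (by omega); omega⟩
  classical
  obtain ⟨j, ⟨hjk, hbj⟩, hmin'⟩ : ∃ j, (∃ hj : j < k + 1, b ≤ (f ⟨j, hj⟩ : ℕ)) ∧
      ∀ i < j, ¬ ∃ hi : i < k + 1, b ≤ (f ⟨i, hi⟩ : ℕ) :=
    ⟨Nat.find hex, Nat.find_spec hex, fun i hi => Nat.find_min hex hi⟩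
  have hmin : ∀ i : Fin (k + 1), (i : ℕ) < j → (f i : ℕ) < b := by
    intro i hi
    by_contra hcon
    exact hmin' i hi ⟨i.2, by push Not at hcon; exact hcon⟩
  have hj0 : 0 < j := by
    rcases Nat.eq_zero_or_pos j with h0 | h0
    · exfalso
      subst h0
      have h5 : (f ⟨0, hjk⟩ : ℕ) = f 0 := rfl
      rw [h5] at hbj
      omega
    · exact h0
  refine hβ j hj0 hjk (isCut_of_lt β ⟨j, hjk⟩ ?_)
  intro i hi i' hi'
  rw [hord]
  have h4 : ((π (f i) : Fin n) : ℕ) < b := h3.2 _ (hmin i hi)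
  have h5 : b ≤ ((π (f i') : Fin n) : ℕ) := by
    apply h3.ge
    have : f ⟨j, hjk⟩ ≤ f i' := hf.monotone hi'
    have h6 : ((f ⟨j, hjk⟩ : Fin n) : ℕ) ≤ f i' := this
    exact hbj.trans h6
  show (π (f i) : ℕ) < π (f i')
  exact h4.trans_le h5

/-- A permutation with components of size at most `k` avoids the basis. -/
lemma small_mem_Av {k n : ℕ} {π : Equiv.Perm (Fin n)} (h : Small k π) : π ∈ Av (basis k) n := by
  rintro ⟨K, β⟩ ⟨hK, hβ⟩ hcont
  simp only at hK
  subst hK
  exact small_not_contained h hβ hcont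

/-- `x` is to the lower left of `y`. -/
def Prec {n : ℕ} (π : Equiv.Perm (Fin n)) (x y : Fin n) : Prop := x < y ∧ π x < π y

lemma Prec.trans {n : ℕ} {π : Equiv.Perm (Fin n)} {x y z : Fin n} (h1 : Prec π x y)
    (h2 : Prec π y z) : Prec π x z := ⟨h1.1.trans h2.1, h1.2.trans h2.2⟩

/-- The points with positions in `S` form a sum-indecomposable pattern. -/
def Conn {n : ℕ} (π : Equiv.Perm (Fin n)) (S : Finset (Fin n)) : Prop :=
  ∀ L ⊆ S, L.Nonempty → (S \ L).Nonempty → ∃ x ∈ L, ∃ y ∈ S \ L, ¬ Prec π x y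

lemma grow {n : ℕ} {π : Equiv.Perm (Fin n)} {V S : Finset (Fin n)} (hV : Conn π V) (hSV : S ⊆ V)
    (hS0 : S.Nonempty) (hS : Conn π S) (hne : (V \ S).Nonempty) :
    ∃ v ∈ V \ S, Conn π (insert v S) := by
  classical
  by_contra hcon
  push Not at hcon
  -- every `v` is comparable with all of `S`
  have key : ∀ v ∈ V \ S, (∀ s ∈ S, Prec π v s) ∨ (∀ s ∈ S, Prec π s v) := by
    intro v hv
    have h1 := hcon v hv
    unfold Conn at h1
    push Not at h1
    obtain ⟨L, hL, hL0, hL1, hLp⟩ := h1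
    have hvS : v ∉ S := (Finset.mem_sdiff.1 hv).2
    by_cases ha : (L ∩ S).Nonempty
    · by_cases hb : (S \ L).Nonempty
      · exfalso
        have hb' : (S \ (L ∩ S)).Nonempty := by
          obtain ⟨y, hy⟩ := hb
          refine ⟨y, Finset.mem_sdiff.2 ⟨(Finset.mem_sdiff.1 hy).1, fun h => ?_⟩⟩
          exact (Finset.mem_sdiff.1 hy).2 (Finset.mem_inter.1 h).1
        obtain ⟨x, hx, y, hy, hxy⟩ := hS (L ∩ S) Finset.inter_subset_right ha hb'
        apply hxy
        apply hLp x (Finset.mem_inter.1 hx).1 y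
        have hyS := (Finset.mem_sdiff.1 hy).1
        refine Finset.mem_sdiff.2 ⟨Finset.mem_insert_of_mem hyS, fun hyL => ?_⟩
        exact (Finset.mem_sdiff.1 hy).2 (Finset.mem_inter.2 ⟨hyL, hyS⟩)
      · right
        intro s hs
        have hsL : s ∈ L := by
          by_contra hsL
          exact hb ⟨s, Finset.mem_sdiff.2 ⟨hs, hsL⟩⟩
        obtain ⟨y, hy⟩ := hL1
        have hyv : y = v := by
          rcases Finset.mem_insert.1 (Finset.mem_sdiff.1 hy).1 with h | h
          · exact h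
          · exact absurd ⟨y, Finset.mem_sdiff.2 ⟨h, (Finset.mem_sdiff.1 hy).2⟩⟩ hb
        subst hyv
        exact hLp s hsL y hy
    · left
      intro s hs
      obtain ⟨x, hx⟩ := hL0
      have hxv : x = v := by
        rcases Finset.mem_insert.1 (hL hx) with h | h
        · exact h
        · exact absurd ⟨x, Finset.mem_inter.2 ⟨hx, h⟩⟩ ha
      subst hxv
      apply hLp x hx s
      refine Finset.mem_sdiff.2 ⟨Finset.mem_insert_of_mem hs, fun hsL => ?_⟩
      exact ha ⟨s, Finset.mem_inter.2 ⟨hsL, hs⟩⟩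
  obtain ⟨s0, hs0⟩ := hS0
  set V2 := (V \ S).filter fun v => ∀ s ∈ S, Prec π s v with hV2
  by_cases h2 : V2.Nonempty
  · have hsub : V2 ⊆ V := (Finset.filter_subset _ _).trans Finset.sdiff_subset
    have hL0 : (V \ V2).Nonempty := by
      refine ⟨s0, Finset.mem_sdiff.2 ⟨hSV hs0, fun h => ?_⟩⟩
      exact (Finset.mem_sdiff.1 (Finset.mem_filter.1 h).1).2 hs0
    have hL1 : (V \ (V \ V2)).Nonempty := by
      obtain ⟨v, hv⟩ := h2
      refine ⟨v, Finset.mem_sdiff.2 ⟨hsub hv, fun h => ?_⟩⟩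
      exact (Finset.mem_sdiff.1 h).2 hv
    obtain ⟨x, hx, y, hy, hxy⟩ := hV (V \ V2) Finset.sdiff_subset hL0 hL1
    apply hxy
    have hyV2 : y ∈ V2 := by
      by_contra h
      exact (Finset.mem_sdiff.1 hy).2 (Finset.mem_sdiff.2 ⟨(Finset.mem_sdiff.1 hy).1, h⟩)
    have hy2 := (Finset.mem_filter.1 hyV2).2
    by_cases hxS : x ∈ S
    · exact hy2 x hxS
    · have hxV : x ∈ V \ S := Finset.mem_sdiff.2 ⟨(Finset.mem_sdiff.1 hx).1, hxS⟩
      rcases key x hxV with h | h
      · exact (h s0 hs0).trans (hy2 s0 hs0)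
      · exact absurd (Finset.mem_filter.2 ⟨hxV, h⟩) (Finset.mem_sdiff.1 hx).2
  · have hL1 : (V \ (V \ S)).Nonempty := by
      refine ⟨s0, Finset.mem_sdiff.2 ⟨hSV hs0, fun h => ?_⟩⟩
      exact (Finset.mem_sdiff.1 h).2 hs0
    obtain ⟨x, hx, y, hy, hxy⟩ := hV (V \ S) Finset.sdiff_subset hne hL1
    apply hxy
    have hyS : y ∈ S := by
      by_contra h
      exact (Finset.mem_sdiff.1 hy).2 (Finset.mem_sdiff.2 ⟨(Finset.mem_sdiff.1 hy).1, h⟩)
    rcases key x hx with h | h
    · exact h y hyS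
    · exact absurd ⟨x, Finset.mem_filter.2 ⟨hx, h⟩⟩ h2

lemma conn_sizes {n : ℕ} {π : Equiv.Perm (Fin n)} {V : Finset (Fin n)} (hV : Conn π V) :
    ∀ s, 0 < s → s ≤ V.card → ∃ S ⊆ V, S.card = s ∧ Conn π S := by
  classical
  intro s hs
  induction s, hs using Nat.le_induction with
  | base =>
    intro h
    have hVne : V.Nonempty := Finset.card_pos.1 (by omega)
    obtain ⟨v, hv⟩ := hVne
    refine ⟨{v}, Finset.singleton_subset_iff.2 hv, Finset.card_singleton v, ?_⟩
    intro L hL hL0 hL1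
    exfalso
    obtain ⟨x, hx⟩ := hL0
    obtain ⟨y, hy⟩ := hL1
    have h1 := Finset.mem_singleton.1 (hL hx)
    have h2 := Finset.mem_singleton.1 (Finset.mem_sdiff.1 hy).1
    subst h1
    subst h2
    exact (Finset.mem_sdiff.1 hy).2 hx
  | succ s hs ih =>
    intro h
    obtain ⟨S, hSV, hSc, hS⟩ := ih (by omega)
    have hS0 : S.Nonempty := Finset.card_pos.1 (by omega)
    have hne : (V \ S).Nonempty := by
      rw [← Finset.card_pos, Finset.card_sdiff_of_subset hSV]
      omega
    obtain ⟨v, hv, hc⟩ := grow hV hSV hS0 hS hne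
    refine ⟨insert v S, ?_, ?_, hc⟩
    · exact Finset.insert_subset (Finset.mem_sdiff.1 hv).1 hSV
    · rw [Finset.card_insert_of_notMem (Finset.mem_sdiff.1 hv).2, hSc]

/-- The standardization. -/
lemma exists_pattern {N n : ℕ} (w : Fin N → Fin n) (hw : Function.Injective w) :
    ∃ β : Equiv.Perm (Fin N), ∀ i j, β i < β j ↔ w i < w j := by
  set τ := Tuple.sort w with hτ
  have hmono : StrictMono (w ∘ τ) :=
    (Tuple.monotone_sort w).strictMono_of_injective (hw.comp τ.injective)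
  refine ⟨τ.symm, fun i j => ?_⟩
  have h := hmono.lt_iff_lt (a := τ.symm i) (b := τ.symm j)
  simp only [Function.comp_apply, Equiv.apply_symm_apply] at h
  exact h.symm

/-- An interval between two consecutive cuts is connected. -/
lemma conn_block {n : ℕ} {π : Equiv.Perm (Fin n)} {a b : ℕ} (ha : IsCut π a) (hb : IsCut π b)
    (hab : a < b) (hno : ∀ c, a < c → c < b → ¬ IsCut π c) :
    Conn π (univ.filter fun i : Fin n => a ≤ (i : ℕ) ∧ (i : ℕ) < b) := by
  classical
  set V := univ.filter fun i : Fin n => a ≤ (i : ℕ) ∧ (i : ℕ) < b with hV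
  have hmemV : ∀ x, x ∈ V ↔ a ≤ (x : ℕ) ∧ (x : ℕ) < b := by
    intro x
    simp [hV]
  have hπV : ∀ x ∈ V, a ≤ (π x : ℕ) ∧ (π x : ℕ) < b := by
    intro x hx
    have h := (hmemV x).1 hx
    exact ⟨ha.ge x h.1, hb.2 x h.2⟩
  have hVc : V.card = b - a := by
    have h1 : V.image (fun i : Fin n => (i : ℕ)) = Finset.Ico a b := by
      ext x
      simp only [Finset.mem_image, Finset.mem_Ico]
      constructor
      · rintro ⟨i, hi, rfl⟩
        exact (hmemV i).1 hi
      · rintro ⟨h1, h2⟩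
        have := hb.1
        exact ⟨⟨x, by omega⟩, (hmemV _).2 ⟨h1, h2⟩, rfl⟩
    rw [← Nat.card_Ico, ← h1, Finset.card_image_of_injective _ Fin.val_injective]
  intro L hL hL0 hL1
  by_contra hcon
  push Not at hcon
  have hLc : L.card < b - a := by
    rw [← hVc]
    apply Finset.card_lt_card
    refine ⟨hL, fun h => ?_⟩
    obtain ⟨y, hy⟩ := hL1
    exact (Finset.mem_sdiff.1 hy).2 (h (Finset.mem_sdiff.1 hy).1)
  have hL0c : 0 < L.card := Finset.card_pos.2 hL0
  have hRc : (V \ L).card = b - a - L.card := by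
    rw [Finset.card_sdiff_of_subset hL, hVc]
  refine hno (a + L.card) (by omega) (by omega) ⟨by have := hb.1; omega, ?_⟩
  intro i hi
  by_cases hia : (i : ℕ) < a
  · have := ha.2 i hia
    omega
  · -- `i` lies in `L`
    have hiV : i ∈ V := (hmemV i).2 ⟨by omega, by omega⟩
    have hiL : i ∈ L := by
      by_contra hiL
      have hsub : L.image (fun i : Fin n => (i : ℕ)) ⊆ Finset.Ico a (i : ℕ) := by
        intro x hx
        obtain ⟨j, hj, rfl⟩ := Finset.mem_image.1 hx
        have h1 := (hcon j hj i (Finset.mem_sdiff.2 ⟨hiV, hiL⟩)).1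
        exact Finset.mem_Ico.2 ⟨((hmemV j).1 (hL hj)).1, h1⟩
      have hc := Finset.card_le_card hsub
      rw [Finset.card_image_of_injective _ Fin.val_injective, Nat.card_Ico] at hc
      omega
    have hsub : (V \ L).image (fun y : Fin n => (π y : ℕ)) ⊆ Finset.Ico ((π i : ℕ) + 1) b := by
      intro x hx
      obtain ⟨y, hy, rfl⟩ := Finset.mem_image.1 hx
      have h1 : (π i : ℕ) < π y := (hcon i hiL y hy).2
      exact Finset.mem_Ico.2 ⟨by omega, (hπV y (Finset.mem_sdiff.1 hy).1).2⟩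
    have hc := Finset.card_le_card hsub
    have hinj : Function.Injective (fun y : Fin n => (π y : ℕ)) := by
      intro y z hyz
      exact π.injective (Fin.ext hyz)
    rw [Finset.card_image_of_injective _ hinj, Nat.card_Ico, hRc] at hc
    have := (hπV i hiV).2
    omega

/-- A permutation which avoids the basis has components of size at most `k`. -/
lemma Av_small {k n : ℕ} {π : Equiv.Perm (Fin n)} (h : π ∈ Av (basis k) n) : Small k π := by
  classical
  by_contra hns
  unfold Small at hns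
  push Not at hns
  obtain ⟨a, han, hno⟩ := hns
  -- the component of `a`
  set a' := Nat.findGreatest (IsCut π) a with ha'
  have ha'cut : IsCut π a' := Nat.findGreatest_spec (P := IsCut π) (Nat.zero_le _) (isCut_zero π)
  have ha'a : a' ≤ a := Nat.findGreatest_le _
  have hex : ∃ b, a < b ∧ IsCut π b := ⟨n, han, isCut_top π⟩
  set b' := Nat.find hex with hb'
  obtain ⟨hab', hb'cut⟩ := Nat.find_spec hex
  have hbig : a + k < b' := by
    by_contra hle
    exact hno b' hab' (by omega) hb'cut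
  have hconn := conn_block ha'cut hb'cut (by omega) (by
    intro c h1 h2 hc
    rcases le_or_gt c a with h3 | h3
    · have := Nat.le_findGreatest (P := IsCut π) h3 hc
      omega
    · exact Nat.find_min hex h2 ⟨h3, hc⟩)
  set V := univ.filter fun i : Fin n => a' ≤ (i : ℕ) ∧ (i : ℕ) < b' with hV
  have hVc : k + 1 ≤ V.card := by
    have hsub : (Finset.Ico a' b') ⊆ V.image (fun i : Fin n => (i : ℕ)) := by
      intro x hx
      have hx' := Finset.mem_Ico.1 hx
      have := hb'cut.1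
      exact Finset.mem_image.2 ⟨⟨x, by omega⟩, by simp [hV, hx'.1, hx'.2], rfl⟩
    have hc := (Finset.card_le_card hsub).trans Finset.card_image_le
    rw [Nat.card_Ico] at hc
    omega
  obtain ⟨S, _, hSc, hS⟩ := conn_sizes hconn (k + 1) (by omega) hVc
  set f := S.orderEmbOfFin hSc with hf
  obtain ⟨β, hβ⟩ := exists_pattern (fun i => π (f i)) (fun i j hij => f.injective (π.injective hij))
  refine h ⟨k + 1, β⟩ ⟨rfl, ?_⟩ ⟨f, f.strictMono, fun i j => hβ i j⟩
  intro b hb0 hbk hcut
  simp only at hbk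
  have hfS : ∀ i, f i ∈ S := fun i => Finset.orderEmbOfFin_mem S hSc i
  set L : Finset (Fin n) := (univ.filter fun i : Fin (k + 1) => (i : ℕ) < b).image f with hL
  have hLS : L ⊆ S := by
    intro x hx
    obtain ⟨i, _, rfl⟩ := Finset.mem_image.1 hx
    exact hfS i
  have hL0 : L.Nonempty := ⟨f ⟨0, by omega⟩, Finset.mem_image.2 ⟨_, by simp [hb0], rfl⟩⟩
  have hL1 : (S \ L).Nonempty := by
    refine ⟨f ⟨b, hbk⟩, Finset.mem_sdiff.2 ⟨hfS _, fun hx => ?_⟩⟩
    obtain ⟨i, hi, hif⟩ := Finset.mem_image.1 hx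
    have := f.injective hif
    subst this
    have := (Finset.mem_filter.1 hi).2
    simp at this
  obtain ⟨x, hx, y, hy, hxy⟩ := hS L hLS hL0 hL1
  obtain ⟨i, hi, rfl⟩ := Finset.mem_image.1 hx
  have hib : (i : ℕ) < b := (Finset.mem_filter.1 hi).2
  obtain ⟨j, rfl⟩ : ∃ j, f j = y := by
    have : y ∈ Set.range f := by
      rw [hf, Finset.range_orderEmbOfFin]
      exact (Finset.mem_sdiff.1 hy).1
    exact this
  have hjb : b ≤ (j : ℕ) := by
    by_contra hlt
    push Not at hlt
    exact (Finset.mem_sdiff.1 hy).2 (Finset.mem_image.2 ⟨j, by simp [hlt], rfl⟩)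
  apply hxy
  refine ⟨f.strictMono (show (i : ℕ) < j by omega), (hβ i j).1 ?_⟩
  have h1 : ((β i : Fin (k + 1)) : ℕ) < b := hcut.2 i hib
  have h2 : b ≤ ((β j : Fin (k + 1)) : ℕ) := hcut.ge j hjb
  show (β i : ℕ) < β j
  exact h1.trans_le h2

lemma Av_basis (k n : ℕ) : Av (basis k) n = {π | Small k π} := by
  ext π
  exact ⟨Av_small, small_mem_Av⟩

lemma basis_finite (k : ℕ) : (basis k).Finite := by
  classical
  have : basis k ⊆ Set.range (fun β : Equiv.Perm (Fin (k + 1)) =>
      (⟨k + 1, β⟩ : Σ k : ℕ, Equiv.Perm (Fin k))) := by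
    rintro ⟨K, β⟩ ⟨hK, _⟩
    simp only at hK
    subst hK
    exact ⟨β, rfl⟩
  exact (Set.finite_range _).subset this

lemma basis_nonempty (k : ℕ) : (basis k).Nonempty := by
  refine ⟨⟨k + 1, Fin.revPerm⟩, rfl, ?_⟩
  intro b hb0 hbk hcut
  simp only at hbk
  have := hcut.2 ⟨0, by simp⟩ hb0
  simp [Fin.revPerm_apply, Fin.rev] at this
  omega

end Pool.Agent.K9h57.PermClass
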