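import Mathlib
import Pool.Agent.K9h57.PermClass.Basis

set_option autoImplicit false

/-!
# The growth rate of the class of the permutations with components of size at most `k`
-/

namespace Pool.Agent.K9h57.PermClass

open Finset Filter Topology

/-- The direct sum `α ⊕ β`: `α` followed by `β` with every entry raised by the length of `α`. -/
def directSum {a b : ℕ} (α : Equiv.Perm (Fin a)) (β : Equiv.Perm (Fin b)) :
    Equiv.Perm (Fin (a + b)) :=
  finSumFinEquiv.permCongr (Equiv.sumCongr α β)

lemma directSum_left {a b : ℕ} (α : Equiv.Perm (Fin a)) (β : Equiv.Perm (Fin b)) (i : Fin a) :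
    directSum α β (Fin.castAdd b i) = Fin.castAdd b (α i) := by
  simp [directSum]

lemma directSum_right {a b : ℕ} (α : Equiv.Perm (Fin a)) (β : Equiv.Perm (Fin b)) (j : Fin b) :
    directSum α β (Fin.natAdd a j) = Fin.natAdd a (β j) := by
  simp [directSum]

/-- The class `Av B` is closed under direct sums. -/
def SumClosed (B : Set (Σ k : ℕ, Equiv.Perm (Fin k))) : Prop :=
  ∀ (a b : ℕ) (α : Equiv.Perm (Fin a)) (β : Equiv.Perm (Fin b)), α ∈ Av B a → β ∈ Av B b →
    directSum α β ∈ Av B (a + b)

lemma isCut_left {a b c : ℕ} {α : Equiv.Perm (Fin a)} (β : Equiv.Perm (Fin b)) (h : IsCut α c) :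
    IsCut (directSum α β) c := by
  refine ⟨by have := h.1; omega, fun i hi => ?_⟩
  have hia : (i : ℕ) < a := by have := h.1; omega
  have hi' : i = Fin.castAdd b ⟨i, hia⟩ := Fin.ext rfl
  rw [hi', directSum_left]
  exact h.2 ⟨i, hia⟩ hi

lemma isCut_right {a b c : ℕ} (α : Equiv.Perm (Fin a)) {β : Equiv.Perm (Fin b)} (h : IsCut β c) :
    IsCut (directSum α β) (a + c) := by
  refine ⟨by have := h.1; omega, fun i hi => ?_⟩
  rcases lt_or_ge (i : ℕ) a with hia | hia
  · have hi' : i = Fin.castAdd b ⟨i, hia⟩ := Fin.ext rfl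
    rw [hi', directSum_left]
    have := (α ⟨i, hia⟩).2
    simp only [Fin.val_castAdd]
    omega
  · have hib : (i : ℕ) - a < b := by have := i.2; omega
    have hi' : i = Fin.natAdd a ⟨i - a, hib⟩ := Fin.ext (by simp; omega)
    rw [hi', directSum_right]
    have := h.2 ⟨i - a, hib⟩ (by simp only; omega)
    simp only [Fin.val_natAdd]
    omega

lemma small_directSum {k a b : ℕ} {α : Equiv.Perm (Fin a)} {β : Equiv.Perm (Fin b)}
    (hα : Small k α) (hβ : Small k β) : Small k (directSum α β) := by
  intro i hi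
  rcases lt_or_ge i a with hia | hia
  · obtain ⟨c, h1, h2, h3⟩ := hα i hia
    exact ⟨c, h1, h2, isCut_left β h3⟩
  · obtain ⟨c, h1, h2, h3⟩ := hβ (i - a) (by omega)
    exact ⟨a + c, by omega, by omega, isCut_right α h3⟩

lemma sumClosed_basis (k : ℕ) : SumClosed (basis k) := by
  intro a b α β hα hβ
  exact small_mem_Av (small_directSum (Av_small hα) (Av_small hβ))

lemma directSum_injective {a b : ℕ} {α α' : Equiv.Perm (Fin a)} {β β' : Equiv.Perm (Fin b)}
    (h : directSum α β = directSum α' β') : α = α' ∧ β = β' := by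
  constructor
  · ext i
    have := congrArg (fun π : Equiv.Perm (Fin (a + b)) => ((π (Fin.castAdd b i) : Fin (a + b)) : ℕ)) h
    simpa [directSum_left] using this
  · ext i
    have := congrArg (fun π : Equiv.Perm (Fin (a + b)) => ((π (Fin.natAdd a i) : Fin (a + b)) : ℕ)) h
    simpa [directSum_right] using this

/-- The number of permutations of length `n` in the class. -/
noncomputable def cnt (k n : ℕ) : ℕ := (Av (basis k) n).ncard

lemma cnt_mul (k a b : ℕ) : cnt k a * cnt k b ≤ cnt k (a + b) := by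
  unfold cnt
  rw [← Set.ncard_prod]
  refine Set.ncard_le_ncard_of_injOn (fun p => directSum p.1 p.2) ?_ ?_ (Set.toFinite _)
  · rintro ⟨α, β⟩ ⟨hα, hβ⟩
    exact sumClosed_basis k a b α β hα hβ
  · rintro ⟨α, β⟩ _ ⟨α', β'⟩ _ h
    obtain ⟨h1, h2⟩ := directSum_injective h
    exact Prod.ext h1 h2

lemma cnt_pos {k : ℕ} (hk : 0 < k) (n : ℕ) : 0 < cnt k n := by
  unfold cnt
  rw [Set.ncard_pos (Set.toFinite _)]
  refine ⟨1, small_mem_Av ?_⟩
  intro a ha
  refine ⟨a + 1, by omega, by omega, by omega, fun i hi => ?_⟩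
  simpa using hi

lemma cnt_self (k : ℕ) : cnt k k = k.factorial := by
  unfold cnt
  have : Av (basis k) k = Set.univ := by
    ext π
    simp only [Set.mem_univ, iff_true]
    exact small_mem_Av fun a ha => ⟨k, ha, by omega, isCut_top π⟩
  rw [this, Set.ncard_univ, Nat.card_eq_fintype_card, Fintype.card_perm, Fintype.card_fin]

lemma small_displacement {k n : ℕ} {π : Equiv.Perm (Fin n)} (h : Small k π) (i : Fin n) :
    (π i : ℕ) < i + k ∧ (i : ℕ) < π i + k := by
  constructor
  · obtain ⟨b, h1, h2, h3⟩ := h i i.2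
    have := h3.2 i h1
    omega
  · by_contra hcon
    push Not at hcon
    obtain ⟨b, h1, h2, h3⟩ := h (π i) (π i).2
    have := h3.ge i (by omega)
    omega

lemma cnt_le {k : ℕ} (hk : 0 < k) (n : ℕ) : cnt k n ≤ (2 * k) ^ n := by
  unfold cnt
  have h : (Av (basis k) n).ncard ≤ (Set.univ : Set (Fin n → Fin (2 * k))).ncard := by
    refine Set.ncard_le_ncard_of_injOn
      (fun π i => ⟨((π i : ℕ) + k - i) % (2 * k), Nat.mod_lt _ (by omega)⟩) (fun _ _ => Set.mem_univ _)
      ?_ (Set.toFinite _)
    intro π hπ π' hπ' hh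
    ext i
    have h1 := small_displacement (Av_small hπ) i
    have h2 := small_displacement (Av_small hπ') i
    have h3 : ((π i : ℕ) + k - i) % (2 * k) = ((π' i : ℕ) + k - i) % (2 * k) :=
      congrArg Fin.val (congrFun hh i)
    rw [Nat.mod_eq_of_lt (by omega), Nat.mod_eq_of_lt (by omega)] at h3
    omega
  rw [Set.ncard_univ, Nat.card_eq_fintype_card, Fintype.card_fun, Fintype.card_fin,
    Fintype.card_fin] at h
  exact h

/-- The growth rate exists and is at least `k / e`. -/
lemma growth {k : ℕ} (hk : 0 < k) : ∃ s : ℝ,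
    Tendsto (fun n : ℕ => ((Av (basis k) n).ncard : ℝ) ^ ((1 : ℝ) / (n : ℝ))) atTop (𝓝 s) ∧
      k / Real.exp 1 ≤ s := by
  set u : ℕ → ℝ := fun n => -Real.log (cnt k n) with hu
  have hpos : ∀ n, (0 : ℝ) < cnt k n := fun n => by exact_mod_cast cnt_pos hk n
  have hsub : Subadditive u := by
    intro a b
    simp only [hu]
    have h1 : Real.log ((cnt k a : ℝ) * cnt k b) ≤ Real.log (cnt k (a + b)) := by
      apply Real.log_le_log (mul_pos (hpos a) (hpos b))
      exact_mod_cast cnt_mul k a b
    rw [Real.log_mul (hpos a).ne' (hpos b).ne'] at h1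
    linarith
  have hkR : (0 : ℝ) < k := by exact_mod_cast hk
  have hbdd : BddBelow (Set.range fun n => u n / n) := by
    refine ⟨-Real.log (2 * k), ?_⟩
    rintro x ⟨n, rfl⟩
    simp only [hu]
    have hl : 0 ≤ Real.log (2 * k) := by
      apply Real.log_nonneg
      have : (1 : ℝ) ≤ k := by exact_mod_cast hk
      linarith
    rcases Nat.eq_zero_or_pos n with h0 | h0
    · subst h0
      simp [hl]
    · have hn : (0 : ℝ) < n := by exact_mod_cast h0
      rw [le_div_iff₀ hn]
      have h1 : Real.log (cnt k n) ≤ n * Real.log (2 * k) := by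
        rw [← Real.log_pow]
        apply Real.log_le_log (hpos n)
        exact_mod_cast cnt_le hk n
      linarith
  have hlim := hsub.tendsto_lim hbdd
  refine ⟨Real.exp (-hsub.lim), ?_, ?_⟩
  · have h1 : Tendsto (fun n : ℕ => Real.exp (-(u n / n))) atTop (𝓝 (Real.exp (-hsub.lim))) :=
      (Real.continuous_exp.tendsto _).comp hlim.neg
    refine h1.congr fun n => ?_
    have h2 : ((Av (basis k) n).ncard : ℝ) = cnt k n := rfl
    rw [h2, Real.rpow_def_of_pos (hpos n)]
    congr 1
    simp only [hu]
    ring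
  · have h1 := hsub.lim_le_div hbdd hk.ne'
    have h2 : Real.log (k.factorial) ≥ k * (Real.log k - 1) := by
      have h3 : (k : ℝ) ^ k / k.factorial ≤ Real.exp k := Real.pow_div_factorial_le_exp (k : ℝ) hkR.le k
      have hf : (0 : ℝ) < k.factorial := by exact_mod_cast k.factorial_pos
      have h4 := Real.log_le_log (by positivity) h3
      rw [Real.log_exp, Real.log_div (by positivity) hf.ne', Real.log_pow] at h4
      linarith
    have h3 : hsub.lim ≤ -(Real.log k - 1) := by
      refine h1.trans ?_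
      simp only [hu]
      rw [cnt_self, div_le_iff₀ hkR]
      linarith
    calc (k : ℝ) / Real.exp 1 = Real.exp (Real.log k - 1) := by
          rw [Real.exp_sub, Real.exp_log hkR]
      _ ≤ Real.exp (-hsub.lim) := Real.exp_le_exp.2 (by linarith)

end Pool.Agent.K9h57.PermClass
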