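import Mathlib
import Pool.Agent.K9h57.PermClass.Asym
import Pool.Agent.K9h57.PermClass.Growth

set_option autoImplicit false

/-!
# The mean of the longest subsequence with pattern in the class
-/

namespace Pool.Agent.K9h57.PermClass

open Finset Filter Topology

/-- `longest B π`: the maximum size of a subsequence of `π` with pattern in the class `Av B`. -/
noncomputable def longest (B : Set (Σ k : ℕ, Equiv.Perm (Fin k))) {n : ℕ}
    (π : Equiv.Perm (Fin n)) : ℕ :=
  sSup {m | ∃ σ ∈ Av B m, Contained σ π}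

/-- `meanLongest B n`: the mean of `longest B π` for a uniformly random permutation `π` of length
`n`. -/
noncomputable def meanLongest (B : Set (Σ k : ℕ, Equiv.Perm (Fin k))) (n : ℕ) : ℝ :=
  (∑ π : Equiv.Perm (Fin n), (longest B π : ℝ)) / (n.factorial : ℝ)

/-- `sA B = limsup |Av B n|^(1/n)`. -/
noncomputable def sA (B : Set (Σ k : ℕ, Equiv.Perm (Fin k))) : ℝ :=
  limsup (fun n : ℕ => ((Av B n).ncard : ℝ) ^ ((1 : ℝ) / (n : ℝ))) atTop

/-- `cA B` is defined by `2 √(cA B) = limsup n^(-1/2) meanLongest B n`. -/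
noncomputable def cA (B : Set (Σ k : ℕ, Equiv.Perm (Fin k))) : ℝ :=
  (limsup (fun n : ℕ => meanLongest B n / Real.sqrt n) atTop / 2) ^ 2

lemma contained_card {m n : ℕ} {σ : Equiv.Perm (Fin m)} {π : Equiv.Perm (Fin n)}
    (h : Contained σ π) : m ≤ n := by
  obtain ⟨f, hf, _⟩ := h
  simpa using Fintype.card_le_of_injective f hf.injective

lemma longest_bdd (B : Set (Σ k : ℕ, Equiv.Perm (Fin k))) {n : ℕ} (π : Equiv.Perm (Fin n)) :
    BddAbove {m | ∃ σ ∈ Av B m, Contained σ π} := by
  refine ⟨n, ?_⟩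
  rintro m ⟨σ, _, h⟩
  exact contained_card h

lemma longest_nonempty (k : ℕ) {n : ℕ} (π : Equiv.Perm (Fin n)) :
    {m | ∃ σ ∈ Av (basis k) m, Contained σ π}.Nonempty := by
  refine ⟨0, 1, small_mem_Av (fun a ha => absurd ha (Nat.not_lt_zero a)), ?_⟩
  exact ⟨fun i => absurd i.2 (Nat.not_lt_zero _), fun i => absurd i.2 (Nat.not_lt_zero _),
    fun i => absurd i.2 (Nat.not_lt_zero _)⟩

lemma longest_le (k : ℕ) {n : ℕ} (π : Equiv.Perm (Fin n)) : longest (basis k) π ≤ n := by
  obtain ⟨σ, _, h⟩ := Nat.sSup_mem (longest_nonempty k π) (longest_bdd _ π)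
  exact contained_card h

lemma mem_bad {k m n : ℕ} {π : Equiv.Perm (Fin n)} (h : m ≤ longest (basis k) π) :
    π ∈ bad k m n := by
  classical
  obtain ⟨σ, hσ, hc⟩ := Nat.sSup_mem (longest_nonempty k π) (longest_bdd _ π)
  exact Finset.mem_filter.2 ⟨mem_univ _, _, h, σ, Av_small hσ, hc⟩

/-- The mean is at most `m + n P(bad)`. -/
lemma mean_le (k m n : ℕ) :
    meanLongest (basis k) n ≤ m + n * ((bad k m n).card / (n.factorial : ℝ)) := by
  classical
  have hf : (0 : ℝ) < n.factorial := by exact_mod_cast n.factorial_pos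
  unfold meanLongest
  rw [div_le_iff₀ hf]
  have h1 : ∀ π : Equiv.Perm (Fin n), (longest (basis k) π : ℝ) ≤
      m + (if π ∈ bad k m n then (n : ℝ) else 0) := by
    intro π
    split_ifs with h
    · have := longest_le k π
      have h2 : (longest (basis k) π : ℝ) ≤ n := by exact_mod_cast this
      have h3 : (0 : ℝ) ≤ m := Nat.cast_nonneg m
      linarith
    · have h2 : longest (basis k) π < m := by
        by_contra hcon
        exact h (mem_bad (by omega))
      have h3 : (longest (basis k) π : ℝ) ≤ m := by exact_mod_cast h2.le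
      linarith
  calc ∑ π : Equiv.Perm (Fin n), (longest (basis k) π : ℝ)
      ≤ ∑ π : Equiv.Perm (Fin n), ((m : ℝ) + (if π ∈ bad k m n then (n : ℝ) else 0)) :=
        Finset.sum_le_sum fun π _ => h1 π
    _ = m * n.factorial + (bad k m n).card * n := by
        rw [Finset.sum_add_distrib, Finset.sum_const, Finset.card_univ, Fintype.card_perm,
          Fintype.card_fin, nsmul_eq_mul, ← Finset.sum_filter, Finset.sum_const, nsmul_eq_mul]
        have : (univ : Finset (Equiv.Perm (Fin n))).filter (fun π => π ∈ bad k m n) = bad k m n := by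
          ext π
          simp
        rw [this]
        ring
    _ = (m + n * ((bad k m n).card / (n.factorial : ℝ))) * n.factorial := by
        field_simp

lemma mean_nonneg (k n : ℕ) : 0 ≤ meanLongest (basis k) n := by
  unfold meanLongest
  positivity

lemma mean_le_n (k n : ℕ) : meanLongest (basis k) n ≤ n := by
  have hf : (0 : ℝ) < n.factorial := by exact_mod_cast n.factorial_pos
  unfold meanLongest
  rw [div_le_iff₀ hf]
  calc ∑ π : Equiv.Perm (Fin n), (longest (basis k) π : ℝ)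
      ≤ ∑ π : Equiv.Perm (Fin n), (n : ℝ) :=
        Finset.sum_le_sum fun π _ => by exact_mod_cast longest_le k π
    _ = n * n.factorial := by
        rw [Finset.sum_const, Finset.card_univ, Fintype.card_perm, Fintype.card_fin,
          nsmul_eq_mul]
        ring

/-- The error term tends to zero. -/
lemma err_tendsto (a c : ℝ) (hc : 0 < c) :
    Tendsto (fun n : ℕ => 1 / Real.sqrt n + Real.sqrt n * Real.exp (a - c * Real.sqrt n)) atTop
      (𝓝 0) := by
  have hs : Tendsto (fun n : ℕ => Real.sqrt n) atTop atTop :=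
    Real.tendsto_sqrt_atTop.comp tendsto_natCast_atTop_atTop
  have h1 : Tendsto (fun n : ℕ => 1 / Real.sqrt n) atTop (𝓝 0) := by
    refine hs.inv_tendsto_atTop.congr fun n => ?_
    rw [Pi.inv_apply, one_div]
  have h2 : Tendsto (fun t : ℝ => t * Real.exp (a - c * t)) atTop (𝓝 0) := by
    have h3 := Real.tendsto_pow_mul_exp_neg_atTop_nhds_zero 1
    have h4 : Tendsto (fun t : ℝ => c * t) atTop atTop :=
      Tendsto.const_mul_atTop hc tendsto_id
    have h5 := (h3.comp h4).const_mul (Real.exp a / c)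
    rw [mul_zero] at h5
    refine h5.congr fun t => ?_
    simp only [Function.comp_apply, pow_one]
    rw [Real.exp_sub, Real.exp_neg]
    field_simp
  have h3 := h1.add (h2.comp hs)
  rw [add_zero] at h3
  exact h3

/-- The upper bound for the mean. -/
lemma mean_bound {δ : ℝ} (hδ : 0 < δ) (hδ1 : δ ≤ 1) {k : ℕ} (hk : 140 / δ ^ 3 ≤ k) :
    ∀ᶠ n : ℕ in atTop, meanLongest (basis k) n / Real.sqrt n ≤ (1 + δ) * Real.sqrt k +
      (1 / Real.sqrt n + Real.sqrt n *
        Real.exp (11 * k + 20 - δ ^ 2 * Real.sqrt k / 20 * Real.sqrt n)) := by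
  filter_upwards [eventually_ge_atTop (64 * k), eventually_gt_atTop 0] with n hn hn0
  have hnpos : (0 : ℝ) < n := by exact_mod_cast hn0
  have hf : (0 : ℝ) < n.factorial := by exact_mod_cast n.factorial_pos
  have hsn : 0 < Real.sqrt n := Real.sqrt_pos.2 hnpos
  have h1 := card_bad_asym hδ hδ1 hk hn
  have h2 := mean_le k (thr δ k n) n
  have h3 : (thr δ k n : ℝ) ≤ (1 + δ) * (Real.sqrt k * Real.sqrt n) + 1 := by
    rw [← Real.sqrt_mul (Nat.cast_nonneg k)]
    exact (Nat.ceil_lt_add_one (by positivity)).le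
  have h4 : ((bad k (thr δ k n) n).card : ℝ) / n.factorial ≤
      Real.exp (11 * k + 20 - δ ^ 2 * Real.sqrt k / 20 * Real.sqrt n) := by
    rw [div_le_iff₀ hf, mul_comm]
    refine h1.trans (le_of_eq ?_)
    rw [Real.sqrt_mul (Nat.cast_nonneg k)]
    congr 3
    ring
  rw [div_le_iff₀ hsn]
  have h5 : (n : ℝ) = Real.sqrt n * Real.sqrt n := (Real.mul_self_sqrt hnpos.le).symm
  have h6 : (n : ℝ) * (((bad k (thr δ k n) n).card : ℝ) / n.factorial) ≤
      n * Real.exp (11 * k + 20 - δ ^ 2 * Real.sqrt k / 20 * Real.sqrt n) :=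
    mul_le_mul_of_nonneg_left h4 hnpos.le
  calc meanLongest (basis k) n
      ≤ (1 + δ) * (Real.sqrt k * Real.sqrt n) + 1 +
          n * Real.exp (11 * k + 20 - δ ^ 2 * Real.sqrt k / 20 * Real.sqrt n) := by linarith
    _ = ((1 + δ) * Real.sqrt k + (1 / Real.sqrt n + Real.sqrt n *
          Real.exp (11 * k + 20 - δ ^ 2 * Real.sqrt k / 20 * Real.sqrt n))) * Real.sqrt n := by
        have h7 : 1 / Real.sqrt n * Real.sqrt n = 1 := by field_simp
        generalize Real.exp (11 * k + 20 - δ ^ 2 * Real.sqrt k / 20 * Real.sqrt n) = E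
        have h8 : ((1 + δ) * Real.sqrt k + (1 / Real.sqrt n + Real.sqrt n * E)) * Real.sqrt n =
            (1 + δ) * (Real.sqrt k * Real.sqrt n) + 1 / Real.sqrt n * Real.sqrt n +
              (Real.sqrt n * Real.sqrt n) * E := by ring
        rw [h8, h7, ← h5]

/-- The sequence of the normalized means is bounded. -/
lemma mean_bddAbove {δ : ℝ} (hδ : 0 < δ) (hδ1 : δ ≤ 1) {k : ℕ} (hk : 140 / δ ^ 3 ≤ k) :
    BddAbove (Set.range fun n : ℕ => meanLongest (basis k) n / Real.sqrt n) := by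
  have hk0 : (0 : ℝ) < k := lt_of_lt_of_le (by positivity) hk
  have hsk : 0 < Real.sqrt k := Real.sqrt_pos.2 hk0
  have h1 := (err_tendsto (11 * k + 20) (δ ^ 2 * Real.sqrt k / 20) (by positivity)).const_add
    ((1 + δ) * Real.sqrt k)
  obtain ⟨C, hC⟩ := h1.bddAbove_range
  obtain ⟨N, hN⟩ := eventually_atTop.1 (mean_bound hδ hδ1 hk)
  refine ⟨max C (∑ i ∈ range N, meanLongest (basis k) i / Real.sqrt i), ?_⟩
  rintro x ⟨n, rfl⟩
  rcases le_or_gt N n with h | h
  · exact ((hN n h).trans (hC ⟨n, rfl⟩)).trans (le_max_left _ _)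
  · refine le_trans ?_ (le_max_right _ _)
    exact Finset.single_le_sum (f := fun i : ℕ => meanLongest (basis k) i / Real.sqrt i)
      (fun i _ => div_nonneg (mean_nonneg k i) (Real.sqrt_nonneg _)) (Finset.mem_range.2 h)

/-- The upper bound for the limsup. -/
lemma limsup_le {δ : ℝ} (hδ : 0 < δ) (hδ1 : δ ≤ 1) {k : ℕ} (hk : 140 / δ ^ 3 ≤ k) :
    limsup (fun n : ℕ => meanLongest (basis k) n / Real.sqrt n) atTop ≤
      (1 + δ) * Real.sqrt k := by
  have hk0 : (0 : ℝ) < k := lt_of_lt_of_le (by positivity) hk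
  have hsk : 0 < Real.sqrt k := Real.sqrt_pos.2 hk0
  have h1 := (err_tendsto (11 * k + 20) (δ ^ 2 * Real.sqrt k / 20) (by positivity)).const_add
    ((1 + δ) * Real.sqrt k)
  rw [add_zero] at h1
  rw [← h1.limsup_eq]
  refine limsup_le_limsup (mean_bound hδ hδ1 hk) ?_ h1.isBoundedUnder_le
  exact Filter.IsCoboundedUnder.of_frequently_ge (a := 0)
    (Frequently.of_forall fun n => div_nonneg (mean_nonneg k n) (Real.sqrt_nonneg _))

lemma limsup_nonneg {δ : ℝ} (hδ : 0 < δ) (hδ1 : δ ≤ 1) {k : ℕ} (hk : 140 / δ ^ 3 ≤ k) :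
    0 ≤ limsup (fun n : ℕ => meanLongest (basis k) n / Real.sqrt n) atTop := by
  refine le_limsup_of_frequently_le
    (Frequently.of_forall fun n => div_nonneg (mean_nonneg k n) (Real.sqrt_nonneg _)) ?_
  exact (mean_bddAbove hδ hδ1 hk).isBoundedUnder_of_range

lemma cA_le {δ : ℝ} (hδ : 0 < δ) (hδ1 : δ ≤ 1) {k : ℕ} (hk : 140 / δ ^ 3 ≤ k) :
    cA (basis k) ≤ (1 + δ) ^ 2 / 4 * k := by
  unfold cA
  have h1 := limsup_le hδ hδ1 hk
  have h2 := limsup_nonneg hδ hδ1 hk
  have h3 : (limsup (fun n : ℕ => meanLongest (basis k) n / Real.sqrt n) atTop / 2) ^ 2 ≤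
      ((1 + δ) * Real.sqrt k / 2) ^ 2 :=
    pow_le_pow_left₀ (by linarith) (by linarith) 2
  refine h3.trans (le_of_eq ?_)
  rw [div_pow, mul_pow, Real.sq_sqrt (Nat.cast_nonneg k)]
  ring

end Pool.Agent.K9h57.PermClass
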